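import Pool.Agent.H56.UE.Defs

/-!
# Module CHN: the chain of components at a hyperbolic time with few captures

`x_k = f^[k] x`. PROOF. Let `M` be given, `Θ = exp 1 * C ^ M ≥ 1`. Choose `δ > 0` (depends on `C, R0, α, M` only) with `δ Θ ≤ R0`, and `C δ Θ exp α ∑_(i ≥ 1) exp (-(α / 2) i) ≤ 1` (so each term is at most `1`). Let `x, n` be as in the statement, `Cap = {k < n | D x_k ^ 2 < exp (-(α / 2) (n - k))}`, `card ≤ M`.
`R n = δ`, `R k = C R (k+1) / D x_k` if `k ∈ Cap`, `R k = (1 + e k) R (k+1) / D x_k` with `e k = C R (k+1) / D x_k ^ 2` otherwise (define it by recursion on `j = n - k`, `r 0 = δ`, `r (j+1) = G j * r j / D x_(n-1-j)`; or by existence and induction). Downward induction on `k ≤ n`: (a) `0 < R k ≤ δ exp (-α (n - k)) C ^ (#Cap ∩ [k, n)) exp (∑_(j ∈ [k,n) \ Cap) e j)`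
(hypothesis `exp (α (n - k)) ≤ ∏ j ∈ Ico k n, D x_j`) and for the non captured `j ≥ k`: `e j ≤ C δ Θ exp (-α (n - j - 1)) exp ((α / 2) (n - j)) = C δ Θ exp α exp (-(α / 2) (n - j))`; so `∑ e j ≤ 1` and `R k ≤ δ Θ exp (-α (n - k)) ≤ R0`. (Convenient: prove by induction `R k * ∏ j ∈ Ico k n, D x_j ≤ δ * C ^ (#(Cap ∩ [k,n))) * exp (∑ j ∈ Ico k n, s j)`
with `s j = C δ Θ exp α exp (-(α / 2) (n - j))`, `1 + s ≤ exp s`.) (b) for all `w ∈ Wk f x n δ k`: `chord w x_k ≤ R k`. `k = n`: `Wk f x n δ n ⊆ {z | chord z x_n < δ}` (`f^[n-n] = id`; `connectedComponentIn_subset`). `k + 1 → k`: `W = Wk f x n δ k` is preconnected, `x_k ∈ W` (`mem_connectedComponentIn`: `chord x_n x_n = 0 < δ`), `f '' W ⊆ Wk f x n δ (k+1)`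
(`f '' W` is preconnected, contains `x_(k+1)`, is contained in `{z | chord (f^[n-(k+1)] z) x_n < δ}`: `IsPreconnected.subset_connectedComponentIn`, `f^[n-(k+1)] (f w) = f^[n-k] w`), so `chord (f w) (f x_k) ≤ R (k+1) ≤ R0` for `w ∈ W`: `(hS x_k).big` resp. `.lin` (`C R (k+1) ≤ D x_k ^ 2` is `e k ≤ 1`). (c) if `k ∉ Cap` then `lin` says that `W` contains no critical point:
`k ∉ CT f x n δ`. So `CT f x n δ ⊆ Cap` and `ncard ≤ M` (`Set.ncard_le_ncard`, `Set.ncard_coe_finset`).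
-/

set_option autoImplicit false

open Filter Topology Metric Set

namespace Pool.Agent.H56.UE

open Pool.Agent.H35.EX (chord)
open Pool.Agent.H32.BT (IsCrit)
open Pool.Agent.H3.NC

private theorem chn_self (y : OnePoint ℂ) : chord y y = 0 := by
  cases y using OnePoint.rec with
  | infty => rfl
  | coe z =>
    show ‖z - z‖ / (√(1 + ‖z‖ ^ 2) * √(1 + ‖z‖ ^ 2)) = 0
    rw [sub_self, norm_zero, zero_div]

private theorem chn_geo {β : ℝ} (hβ : 0 < β) (n : ℕ) :
    ∑ j ∈ Finset.range n, Real.exp (-(β * ((n : ℝ) - j))) ≤ Real.exp (-β) / (1 - Real.exp (-β)) := by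
  have hr : Real.exp (-β) < 1 := by
    rw [← Real.exp_zero]
    exact Real.exp_lt_exp.2 (by linarith)
  have hr0 := Real.exp_pos (-β)
  have h1r : 0 < 1 - Real.exp (-β) := by linarith
  induction n with
  | zero =>
    simp only [Finset.range_zero, Finset.sum_empty]
    positivity
  | succ n ih =>
    rw [Finset.sum_range_succ]
    have e1 : ∀ j ∈ Finset.range n, Real.exp (-(β * (((n + 1 : ℕ) : ℝ) - j))) =
        Real.exp (-β) * Real.exp (-(β * ((n : ℝ) - j))) := by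
      intro j _
      rw [← Real.exp_add]
      congr 1
      push_cast
      ring
    have e2 : Real.exp (-(β * (((n + 1 : ℕ) : ℝ) - n))) = Real.exp (-β) := by
      congr 1
      push_cast
      ring
    rw [Finset.sum_congr rfl e1, ← Finset.mul_sum, e2]
    have e3 : Real.exp (-β) / (1 - Real.exp (-β)) =
        Real.exp (-β) * (Real.exp (-β) / (1 - Real.exp (-β))) + Real.exp (-β) := by
      field_simp
      ring
    rw [e3]
    have := mul_le_mul_of_nonneg_left ih hr0.le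
    linarith

private theorem chn_sub {f : OnePoint ℂ → OnePoint ℂ} (hf : Continuous f) {x : OnePoint ℂ} {n k : ℕ} {δ : ℝ}
    (hδ : 0 < δ) (hk : k < n) : IsPreconnected (Wk f x n δ k) ∧ f^[k] x ∈ Wk f x n δ k ∧
      ∀ w ∈ Wk f x n δ k, f w ∈ Wk f x n δ (k + 1) := by
  have hx : f^[k] x ∈ {z | chord (f^[n - k] z) (f^[n] x) < δ} := by
    show chord (f^[n - k] (f^[k] x)) (f^[n] x) < δ
    rw [← Function.iterate_add_apply, Nat.sub_add_cancel hk.le, chn_self]
    exact hδ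
  have hpc : IsPreconnected (Wk f x n δ k) := isPreconnected_connectedComponentIn
  have hxW : f^[k] x ∈ Wk f x n δ k := mem_connectedComponentIn hx
  refine ⟨hpc, hxW, ?_⟩
  have h1 : f '' Wk f x n δ k ⊆ Wk f x n δ (k + 1) := by
    refine (hpc.image f hf.continuousOn).subset_connectedComponentIn ?_ ?_
    · exact ⟨f^[k] x, hxW, (Function.iterate_succ_apply' f k x).symm⟩
    · rintro _ ⟨w, hw, rfl⟩
      have hss : Wk f x n δ k ⊆ {z | chord (f^[n - k] z) (f^[n] x) < δ} := connectedComponentIn_subset _ _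
      have h2 : chord (f^[n - k] w) (f^[n] x) < δ := hss hw
      show chord (f^[n - (k + 1)] (f w)) (f^[n] x) < δ
      rw [← Function.iterate_succ_apply, Nat.succ_eq_add_one, show n - (k + 1) + 1 = n - k by omega]
      exact h2
  exact fun w hw => h1 ⟨w, hw, rfl⟩

open Classical in
theorem chn {f : OnePoint ℂ → OnePoint ℂ} (hf : Continuous f) {D : OnePoint ℂ → ℝ} {C R0 : ℝ} (hC : 1 ≤ C)
    (hR0 : 0 < R0) (hS : ∀ q, Stp f (D q) C R0 q) {α : ℝ} (hα : 0 < α) (M : ℕ) :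
    ∃ δ : ℝ, 0 < δ ∧ ∀ (x : OnePoint ℂ) (n : ℕ), (∀ k < n, 0 < D (f^[k] x)) →
      (∀ k ≤ n, Real.exp (α * ((n : ℝ) - k)) ≤ ∏ j ∈ Finset.Ico k n, D (f^[j] x)) →
      ((Finset.range n).filter fun k => D (f^[k] x) ^ 2 < Real.exp (-(α / 2 * ((n : ℝ) - k)))).card ≤ M →
      (CT f x n δ).ncard ≤ M := by
  obtain ⟨Θ, hΘ⟩ : ∃ Θ, Θ = Real.exp 1 * C ^ M := ⟨_, rfl⟩
  have hC0 : 0 < C := by linarith
  have hΘ0 : 0 < Θ := by rw [hΘ]; positivity
  obtain ⟨G, hG⟩ : ∃ G, G = Real.exp (-(α / 2)) / (1 - Real.exp (-(α / 2))) := ⟨_, rfl⟩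
  have hr : Real.exp (-(α / 2)) < 1 := by
    rw [← Real.exp_zero]
    exact Real.exp_lt_exp.2 (by linarith)
  have hG0 : 0 < G := by
    rw [hG]
    exact div_pos (Real.exp_pos _) (by linarith)
  obtain ⟨δ, hδdef⟩ : ∃ δ, δ = min (R0 / Θ) (1 / (C * Θ * Real.exp α * G)) := ⟨_, rfl⟩
  have hδ0 : 0 < δ := by
    rw [hδdef]
    exact lt_min (by positivity) (by positivity)
  have hδ1 : δ * Θ ≤ R0 := by
    have : δ ≤ R0 / Θ := by rw [hδdef]; exact min_le_left _ _
    rwa [le_div_iff₀ hΘ0] at this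
  have hδ2 : C * δ * Θ * Real.exp α * G ≤ 1 := by
    have h1 : δ ≤ 1 / (C * Θ * Real.exp α * G) := by rw [hδdef]; exact min_le_right _ _
    rw [le_div_iff₀ (by positivity)] at h1
    linarith
  refine ⟨δ, hδ0, fun x n hD hP hcard => ?_⟩
  obtain ⟨A, hA⟩ : ∃ A, A = C * δ * Θ * Real.exp α := ⟨_, rfl⟩
  have hA0 : 0 < A := by rw [hA]; positivity
  obtain ⟨s, hs⟩ : ∃ s : ℕ → ℝ, ∀ j, s j = A * Real.exp (-(α / 2 * ((n : ℝ) - j))) := ⟨fun j => _, fun j => rfl⟩
  have hs0 : ∀ j, 0 ≤ s j := fun j => by rw [hs]; positivity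
  have hsum : ∀ k, ∑ j ∈ Finset.Ico k n, s j ≤ 1 := by
    intro k
    have h1 : ∑ j ∈ Finset.Ico k n, s j ≤ ∑ j ∈ Finset.range n, s j :=
      Finset.sum_le_sum_of_subset_of_nonneg (fun j hj => Finset.mem_range.2 (Finset.mem_Ico.1 hj).2)
        fun j _ _ => hs0 j
    have h2 : ∑ j ∈ Finset.range n, s j ≤ A * G := by
      rw [Finset.sum_congr rfl fun j _ => hs j, ← Finset.mul_sum, hG]
      exact mul_le_mul_of_nonneg_left (chn_geo (by linarith) n) hA0.le
    rw [hA] at h2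
    linarith
  obtain ⟨cap, hcap⟩ : ∃ cap : ℕ → Prop, ∀ k, cap k ↔ D (f^[k] x) ^ 2 < Real.exp (-(α / 2 * ((n : ℝ) - k))) :=
    ⟨fun k => _, fun k => Iff.rfl⟩
  obtain ⟨c, hc⟩ : ∃ c : ℕ → ℝ, ∀ j, c j = if cap j then C else 1 := ⟨fun j => _, fun j => rfl⟩
  have hc1 : ∀ j, 1 ≤ c j := fun j => by
    rw [hc]
    split_ifs
    · exact hC
    · exact le_rfl
  have hcprod : ∀ k, ∏ j ∈ Finset.Ico k n, c j ≤ C ^ M := by
    intro k
    rw [Finset.prod_congr rfl fun j _ => hc j, Finset.prod_ite, Finset.prod_const, Finset.prod_const_one, mul_one]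
    refine pow_le_pow_right₀ hC (le_trans (Finset.card_le_card ?_) hcard)
    intro j hj
    rw [Finset.mem_filter] at hj ⊢
    exact ⟨Finset.mem_range.2 (Finset.mem_Ico.1 hj.1).2, (hcap j).1 hj.2⟩
  -- consequence of the induction hypothesis
  have hbound : ∀ k ≤ n, ∀ R : ℝ, 0 < R → R * ∏ j ∈ Finset.Ico k n, D (f^[j] x) ≤
      δ * (∏ j ∈ Finset.Ico k n, c j) * Real.exp (∑ j ∈ Finset.Ico k n, s j) →
      R ≤ δ * Θ * Real.exp (-(α * ((n : ℝ) - k))) := by
    intro k hk R hR h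
    have h1 : R * Real.exp (α * ((n : ℝ) - k)) ≤ δ * C ^ M * Real.exp 1 := by
      refine (mul_le_mul_of_nonneg_left (hP k hk) hR.le).trans (h.trans ?_)
      have h2 : Real.exp (∑ j ∈ Finset.Ico k n, s j) ≤ Real.exp 1 := Real.exp_le_exp.2 (hsum k)
      have h3 := hcprod k
      have h4 : 0 ≤ ∏ j ∈ Finset.Ico k n, c j := Finset.prod_nonneg fun j _ => by linarith [hc1 j]
      have h5 : δ * (∏ j ∈ Finset.Ico k n, c j) ≤ δ * C ^ M := mul_le_mul_of_nonneg_left h3 hδ0.le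
      exact mul_le_mul h5 h2 (Real.exp_pos _).le (by positivity)
    have h6 : R = R * Real.exp (α * ((n : ℝ) - k)) * Real.exp (-(α * ((n : ℝ) - k))) := by
      rw [mul_assoc, ← Real.exp_add, add_neg_cancel, Real.exp_zero, mul_one]
    rw [h6, hΘ]
    refine mul_le_mul_of_nonneg_right (h1.trans (le_of_eq (by ring))) (Real.exp_pos _).le
  have step : ∀ k, k < n → (∃ R : ℝ, 0 < R ∧ R * ∏ j ∈ Finset.Ico (k + 1) n, D (f^[j] x) ≤
      δ * (∏ j ∈ Finset.Ico (k + 1) n, c j) * Real.exp (∑ j ∈ Finset.Ico (k + 1) n, s j) ∧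
      ∀ w ∈ Wk f x n δ (k + 1), chord w (f^[k + 1] x) ≤ R) →
      (∃ R : ℝ, 0 < R ∧ R * ∏ j ∈ Finset.Ico k n, D (f^[j] x) ≤
      δ * (∏ j ∈ Finset.Ico k n, c j) * Real.exp (∑ j ∈ Finset.Ico k n, s j) ∧
      ∀ w ∈ Wk f x n δ k, chord w (f^[k] x) ≤ R) ∧ (¬ cap k → ∀ w ∈ Wk f x n δ k, ¬ IsCrit f w) := by
    rintro k hk ⟨R', hR', hRP, hRW⟩
    obtain ⟨hpc, hxW, hfW⟩ := chn_sub hf hδ0 hk (x := x)
    have hb := hbound (k + 1) hk R' hR' hRP
    have hb0 : R' ≤ R0 := by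
      refine hb.trans ((mul_le_of_le_one_right (by positivity) ?_).trans hδ1)
      rw [← Real.exp_zero]
      refine Real.exp_le_exp.2 ?_
      have : ((k + 1 : ℕ) : ℝ) ≤ n := by exact_mod_cast hk
      nlinarith
    have hDk := hD k hk
    have hfW2 : ∀ w ∈ Wk f x n δ k, chord (f w) (f (f^[k] x)) ≤ R' := by
      intro w hw
      have := hRW (f w) (hfW w hw)
      rwa [Function.iterate_succ_apply'] at this
    have hprod : ∏ j ∈ Finset.Ico k n, D (f^[j] x) = D (f^[k] x) * ∏ j ∈ Finset.Ico (k + 1) n, D (f^[j] x) :=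
      Finset.prod_eq_prod_Ico_succ_bot hk _
    have hprodc : ∏ j ∈ Finset.Ico k n, c j = c k * ∏ j ∈ Finset.Ico (k + 1) n, c j :=
      Finset.prod_eq_prod_Ico_succ_bot hk _
    have hsums : ∑ j ∈ Finset.Ico k n, s j = s k + ∑ j ∈ Finset.Ico (k + 1) n, s j :=
      Finset.sum_eq_sum_Ico_succ_bot hk _
    have hP0 : 0 ≤ ∏ j ∈ Finset.Ico (k + 1) n, c j := Finset.prod_nonneg fun j _ => by linarith [hc1 j]
    have hexp1 : 1 ≤ Real.exp (s k) := Real.one_le_exp (hs0 k)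
    by_cases hck : cap k
    · refine ⟨⟨C * R' / D (f^[k] x), by positivity, ?_, ?_⟩, fun h => absurd hck h⟩
      · rw [hprod, hprodc, hsums, Real.exp_add, hc, if_pos hck]
        have e1 : C * R' / D (f^[k] x) * (D (f^[k] x) * ∏ j ∈ Finset.Ico (k + 1) n, D (f^[j] x)) =
            C * (R' * ∏ j ∈ Finset.Ico (k + 1) n, D (f^[j] x)) := by
          field_simp
        rw [e1]
        refine (mul_le_mul_of_nonneg_left hRP hC0.le).trans ?_
        have e2 : 0 ≤ C * (δ * (∏ j ∈ Finset.Ico (k + 1) n, c j) *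
            Real.exp (∑ j ∈ Finset.Ico (k + 1) n, s j)) := by positivity
        nlinarith
      · exact (hS _).big hDk R' hR' hb0 _ hpc hxW hfW2
    · have hnc : Real.exp (-(α / 2 * ((n : ℝ) - k))) ≤ D (f^[k] x) ^ 2 := by
        rw [hcap] at hck
        exact not_lt.1 hck
      have hD2 : 0 < D (f^[k] x) ^ 2 := by positivity
      have he : C * R' / D (f^[k] x) ^ 2 ≤ s k := by
        rw [div_le_iff₀ hD2]
        have e1 : C * R' ≤ C * (δ * Θ * Real.exp (-(α * ((n : ℝ) - (k + 1 : ℕ))))) :=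
          mul_le_mul_of_nonneg_left hb hC0.le
        have e2 : s k * Real.exp (-(α / 2 * ((n : ℝ) - k))) ≤ s k * D (f^[k] x) ^ 2 :=
          mul_le_mul_of_nonneg_left hnc (hs0 k)
        refine e1.trans (le_trans (le_of_eq ?_) e2)
        rw [hs, hA]
        have e3 : Real.exp (-(α * ((n : ℝ) - (k + 1 : ℕ)))) =
            Real.exp α * (Real.exp (-(α / 2 * ((n : ℝ) - k))) * Real.exp (-(α / 2 * ((n : ℝ) - k)))) := by
          rw [← Real.exp_add, ← Real.exp_add]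
          congr 1
          push_cast
          ring
        rw [e3]
        ring
      have hsk : s k ≤ 1 := by
        have h1 := hsum k
        rw [hsums] at h1
        have h2 : 0 ≤ ∑ j ∈ Finset.Ico (k + 1) n, s j := Finset.sum_nonneg fun j _ => hs0 j
        linarith
      have hlin : C * R' ≤ D (f^[k] x) ^ 2 := by
        have := he.trans hsk
        rwa [div_le_one hD2] at this
      have hl := (hS _).lin hDk R' hR' hb0 hlin _ hpc hxW hfW2
      have he0 : 0 ≤ C * R' / D (f^[k] x) ^ 2 := by positivity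
      refine ⟨⟨(1 + C * R' / D (f^[k] x) ^ 2) * (R' / D (f^[k] x)), by positivity, ?_, fun w hw => (hl w hw).1⟩,
        fun _ w hw => (hl w hw).2⟩
      rw [hprod, hprodc, hsums, Real.exp_add, hc, if_neg hck, one_mul]
      have e1 : (1 + C * R' / D (f^[k] x) ^ 2) * (R' / D (f^[k] x)) *
          (D (f^[k] x) * ∏ j ∈ Finset.Ico (k + 1) n, D (f^[j] x)) =
          (1 + C * R' / D (f^[k] x) ^ 2) * (R' * ∏ j ∈ Finset.Ico (k + 1) n, D (f^[j] x)) := by
        field_simp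
      rw [e1]
      have e2 : 1 + C * R' / D (f^[k] x) ^ 2 ≤ Real.exp (s k) := by
        have := Real.add_one_le_exp (s k)
        linarith
      have e3 : 0 ≤ R' * ∏ j ∈ Finset.Ico (k + 1) n, D (f^[j] x) := by
        refine mul_nonneg hR'.le (Finset.prod_nonneg fun j hj => (hD j (Finset.mem_Ico.1 hj).2).le)
      calc (1 + C * R' / D (f^[k] x) ^ 2) * (R' * ∏ j ∈ Finset.Ico (k + 1) n, D (f^[j] x))
          ≤ Real.exp (s k) * (δ * (∏ j ∈ Finset.Ico (k + 1) n, c j) *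
            Real.exp (∑ j ∈ Finset.Ico (k + 1) n, s j)) :=
            mul_le_mul e2 hRP e3 (Real.exp_pos _).le
        _ = _ := by ring
  have hall : ∀ i, i ≤ n → ∃ R : ℝ, 0 < R ∧ R * ∏ j ∈ Finset.Ico (n - i) n, D (f^[j] x) ≤
      δ * (∏ j ∈ Finset.Ico (n - i) n, c j) * Real.exp (∑ j ∈ Finset.Ico (n - i) n, s j) ∧
      ∀ w ∈ Wk f x n δ (n - i), chord w (f^[n - i] x) ≤ R := by
    intro i
    induction i with
    | zero =>
      intro _
      refine ⟨δ, hδ0, by simp, fun w hw => ?_⟩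
      have hss : Wk f x n δ (n - 0) ⊆ {z | chord (f^[n - (n - 0)] z) (f^[n] x) < δ} :=
        connectedComponentIn_subset _ _
      have h1 : chord (f^[n - (n - 0)] w) (f^[n] x) < δ := hss hw
      rw [Nat.sub_zero, Nat.sub_self] at h1
      rw [Nat.sub_zero]
      exact h1.le
    | succ i ih =>
      intro hi
      have h1 := ih (by omega)
      have h2 : n - i = (n - (i + 1)) + 1 := by omega
      rw [h2] at h1
      exact (step (n - (i + 1)) (by omega) h1).1
  have hCT : CT f x n δ ⊆ ↑((Finset.range n).filter fun k =>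
      D (f^[k] x) ^ 2 < Real.exp (-(α / 2 * ((n : ℝ) - k)))) := by
    rintro k ⟨hk, cc, hcc, hccW⟩
    rw [Finset.mem_coe, Finset.mem_filter]
    refine ⟨Finset.mem_range.2 hk, ?_⟩
    by_contra hn
    have h1 := hall (n - (k + 1)) (by omega)
    rw [show n - (n - (k + 1)) = k + 1 by omega] at h1
    exact (step k hk h1).2 (fun h => hn ((hcap k).1 h)) cc hccW hcc
  calc (CT f x n δ).ncard ≤ (↑((Finset.range n).filter fun k =>
      D (f^[k] x) ^ 2 < Real.exp (-(α / 2 * ((n : ℝ) - k)))) : Set ℕ).ncard :=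
        Set.ncard_le_ncard hCT (Finset.finite_toSet _)
    _ = _ := Set.ncard_coe_finset _
    _ ≤ M := hcard

end Pool.Agent.H56.UE
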