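import Pool.Agent.H56.UE.SPS
import Pool.Agent.H56.UE.CHN
import Pool.Agent.H56.UE.PLF

/-!
# Module UEX: THEOREM UE

PROOF. `f = rat P Q`, `sps`: `D, C, R0`. (1) For all `n` and `ε > 0`: eventually for `y` near `x`: `chord (f^[n] x) (f^[n] y) ≤ (∏ j ∈ range n, (D x_j + ε)) * chord x y` (induction on `n`: `up` at `x_n` and continuity of `f^[n]` at `x`; `x_j = f^[j] x`). (2) If `∀ᶠ y in 𝓝 x, b * chord x y ≤ chord (f^[n] x) (f^[n] y)` then `b ≤ ∏ j ∈ range n, (D x_j + ε)`: `x` is not isolated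
(there are `y ≠ x` arbitrarily near, `chord x y > 0`), for all `ε > 0`, so `b ≤ ∏ j ∈ range n, D x_j` (limit `ε → 0`: continuity of the product). So `q ^ n ≤ ∏ j ∈ range n, D x_j` for infinitely many `n`; hence all `D x_j > 0` (`D x_j ≥ 0`, a larger such `n`). (3) `a j = log (D x_j) ≤ log C =: A`, `A ≥ 0`, `b j = -2 a j`. For these `n`: `∑ a j = log ∏ ≥ n log q`, `max (b j) 0 ≤ -2 a j + 2 A`
(as `a j ≤ A`, `A ≥ 0`), so `∑ max (b j) 0 ≤ 2 A n - 2 n log q ≤ 2 A n`. (4) `plf` with `β = log q`, `α = log q / 2`, `γ = α / 2`, `Q = 2 A`, `C = 0`: `M, T`. (5) `chn` with `α, M`: `δ`. For `n ∈ T`: `exp (α (n - k)) ≤ ∏ j ∈ Ico k n, D x_j` (exp of the first condition, `Real.exp_sum`, `exp (log D) = D`); `D x_k ^ 2 < exp (-(α/2)(n-k))` implies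
`2 a k < -(α/2)(n-k)`, so `γ (n - k) ≤ b k`: the filter of `chn` is contained in that of `plf`. So `T ⊆ {n | (CT f x n δ).ncard ≤ M}`.
-/

set_option autoImplicit false

open Filter Topology Metric Set Polynomial

namespace Pool.Agent.H56.UE

open Pool.Agent.H44.Fatou (rat)
open Pool.Agent.H35.EX (chord)
open Pool.Agent.H3.NC

private theorem uex_up {f : OnePoint ℂ → OnePoint ℂ} (hf : Continuous f) {D : OnePoint ℂ → ℝ}
    {C R0 : ℝ} (hS : ∀ q, Stp f (D q) C R0 q) (x : OnePoint ℂ) {ε : ℝ} (hε : 0 < ε) (n : ℕ) :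
    ∀ᶠ y in 𝓝 x, chord (f^[n] x) (f^[n] y) ≤
      (∏ j ∈ Finset.range n, (D (f^[j] x) + ε)) * chord x y := by
  induction n with
  | zero =>
    refine Eventually.of_forall fun y => ?_
    rw [Finset.range_zero, Finset.prod_empty, one_mul]
    exact le_rfl
  | succ n ih =>
    have h1 := ((hf.iterate n).tendsto x).eventually ((hS (f^[n] x)).up ε hε)
    filter_upwards [ih, h1] with y h2 h3
    rw [Function.iterate_succ_apply', Function.iterate_succ_apply', Finset.prod_range_succ]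
    refine h3.trans ?_
    have h4 : 0 ≤ D (f^[n] x) + ε := add_nonneg (hS _).D0 hε.le
    calc (D (f^[n] x) + ε) * chord (f^[n] x) (f^[n] y) ≤
          (D (f^[n] x) + ε) * ((∏ j ∈ Finset.range n, (D (f^[j] x) + ε)) * chord x y) :=
          mul_le_mul_of_nonneg_left h2 h4
      _ = _ := by ring

private theorem uex_le {f : OnePoint ℂ → OnePoint ℂ} (hf : Continuous f) {D : OnePoint ℂ → ℝ}
    {C R0 : ℝ} (hS : ∀ q, Stp f (D q) C R0 q) (x : OnePoint ℂ) {b : ℝ} {n : ℕ}
    (hb : ∀ᶠ y in 𝓝 x, b * chord x y ≤ chord (f^[n] x) (f^[n] y)) :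
    b ≤ ∏ j ∈ Finset.range n, D (f^[j] x) := by
  have key : ∀ ε : ℝ, 0 < ε → b ≤ ∏ j ∈ Finset.range n, (D (f^[j] x) + ε) := by
    intro ε hε
    have h1 := hb.and (uex_up hf hS x hε n)
    have h2 : ∀ᶠ y in 𝓝[≠] x, y ≠ x := eventually_mem_nhdsWithin
    obtain ⟨y, ⟨h3, h4⟩, h5⟩ := ((h1.filter_mono nhdsWithin_le_nhds).and h2).exists
    have h6 : 0 < chord x y := Pool.Agent.H35.EX.chord_pos h5.symm
    exact le_of_mul_le_mul_right (h3.trans h4) h6
  have hc : Continuous fun ε : ℝ => ∏ j ∈ Finset.range n, (D (f^[j] x) + ε) :=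
    continuous_finsetProd _ fun j _ => continuous_const.add continuous_id
  have ht := hc.tendsto 0
  simp only [add_zero] at ht
  refine ge_of_tendsto (ht.mono_left nhdsWithin_le_nhds : Tendsto _ (𝓝[>] (0 : ℝ)) _) ?_
  filter_upwards [self_mem_nhdsWithin] with ε hε
  exact key ε hε

theorem ue {P Q : Polynomial ℂ} (hcop : IsCoprime P Q) (hd : 1 ≤ max P.natDegree Q.natDegree) {x : OnePoint ℂ}
    (h : PUE (rat P Q) x) :
    ∃ δ : ℝ, 0 < δ ∧ ∃ M : ℕ, {n : ℕ | (CT (rat P Q) x n δ).ncard ≤ M}.Infinite := by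
  classical
  have hf : Continuous (rat P Q) := Pool.Agent.H44.Fatou.rat_continuous hcop
  obtain ⟨f, hfd⟩ : ∃ f, f = rat P Q := ⟨_, rfl⟩
  obtain ⟨D, C, R0, hC, hR0, hS⟩ := sps hcop hd
  rw [← hfd] at h hf hS ⊢
  obtain ⟨q, hq, hfr⟩ := h
  have hfr2 : ∃ᶠ n : ℕ in atTop, q ^ n ≤ ∏ j ∈ Finset.range n, D (f^[j] x) :=
    hfr.mono fun n hn => uex_le hf hS x hn
  have hq0 : 0 < q := by linarith
  have hpos : ∀ j, 0 < D (f^[j] x) := by
    intro j
    refine lt_of_le_of_ne (hS _).D0 fun h0 => ?_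
    obtain ⟨n, hn, h1⟩ := (frequently_atTop.1 hfr2) (j + 1)
    have h2 : ∏ j ∈ Finset.range n, D (f^[j] x) = 0 :=
      Finset.prod_eq_zero (i := j) (Finset.mem_range.2 (by omega)) h0.symm
    rw [h2] at h1
    exact absurd h1 (not_le.2 (pow_pos hq0 n))
  have hA : 0 ≤ Real.log C := Real.log_nonneg hC
  have ha : ∀ j, Real.log (D (f^[j] x)) ≤ Real.log C := fun j =>
    Real.log_le_log (hpos j) (hS _).DC
  have hlq : 0 < Real.log q := Real.log_pos hq
  have hex : ∀ s : Finset ℕ, ∑ j ∈ s, Real.log (D (f^[j] x)) =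
      Real.log (∏ j ∈ s, D (f^[j] x)) := fun s =>
    (Real.log_prod fun j _ => (hpos j).ne').symm
  obtain ⟨M, T, hT, hM⟩ := plf (a := fun j => Real.log (D (f^[j] x)))
    (b := fun j => -2 * Real.log (D (f^[j] x))) (A' := Real.log C) (α := Real.log q / 2)
    (β := Real.log q) (C := 0) (Q := 2 * Real.log C) (γ := Real.log q / 2 / 2) (by linarith)
    (by linarith) ha (by
      refine hfr2.mono fun n hn => ?_
      have h1 : Real.log q * n ≤ ∑ j ∈ Finset.range n, Real.log (D (f^[j] x)) := by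
        rw [hex, mul_comm, ← Real.log_pow]
        exact Real.log_le_log (pow_pos hq0 n) hn
      refine ⟨h1, ?_⟩
      have h2 : ∑ j ∈ Finset.range n, max (-2 * Real.log (D (f^[j] x))) 0 ≤
          ∑ j ∈ Finset.range n, (-2 * Real.log (D (f^[j] x)) + 2 * Real.log C) := by
        refine Finset.sum_le_sum fun j _ => max_le ?_ ?_
        · linarith
        · linarith [ha j]
      refine h2.trans ?_
      rw [Finset.sum_add_distrib, ← Finset.mul_sum, Finset.sum_const, Finset.card_range,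
        nsmul_eq_mul]
      have h3 : (0 : ℝ) ≤ Real.log q * n := mul_nonneg hlq.le (Nat.cast_nonneg n)
      linarith)
  obtain ⟨δ, hδ, hch⟩ := chn hf hC hR0 hS (α := Real.log q / 2) (by linarith) M
  refine ⟨δ, hδ, M, hT.mono fun n hn => ?_⟩
  obtain ⟨h1, h2⟩ := hM n hn
  refine hch x n (fun k _ => hpos k) ?_ ?_
  · intro k hk
    have h3 := h1 k hk
    rw [hex, ← Real.exp_le_exp, Real.exp_log (Finset.prod_pos fun j _ => hpos j)] at h3
    exact h3
  · refine le_trans (Finset.card_le_card ?_) h2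
    intro k hk
    rw [Finset.mem_filter] at hk ⊢
    refine ⟨hk.1, ?_⟩
    have h3 := Real.log_lt_log (pow_pos (hpos k) 2) hk.2
    rw [Real.log_exp, Real.log_pow] at h3
    push_cast at h3
    linarith

/-- a persistently recurrent critical point has no positive upper exponent at its value -/
theorem pr_pue {P Q : Polynomial ℂ} (hcop : IsCoprime P Q) (hd : 1 ≤ max P.natDegree Q.natDegree) {c : OnePoint ℂ}
    (h : PR (rat P Q) c) : ¬ PUE (rat P Q) (rat P Q c) := by
  intro h1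
  obtain ⟨δ, hδ, M, hM⟩ := ue hcop hd h1
  exact hM (h δ hδ M)

end Pool.Agent.H56.UE
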