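import Pool.Agent.H44.RC.RCD
import Pool.Agent.H3.NC.Sph

/-!
# THEOREM UE: a point with positive upper exponent has infinitely many times with boundedly many critical times: definitions

`PUE f x`: the upper Lyapunov exponent of `f` at `x` is positive. `Stp f D C R0 q`: the step data at the point `q`: `D` is (an upper bound of) the chordal derivative of `f` at `q`,
`big`: the connected sets `W` at `q` with `f(W)` in the closed disc of radius `R` at `f q` have radius at most `C R / D`, `lin`: if `C R ≤ D ^ 2` then it is at most `(1 + C R / D ^ 2) R / D`, and there are no critical points in `W`.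
-/

set_option autoImplicit false

open Filter Topology Metric Set

namespace Pool.Agent.H56.UE

open Pool.Agent.H35.EX (chord)
open Pool.Agent.H32.BT (IsCrit)

/-- the upper Lyapunov exponent of `f` at `x` is positive -/
def PUE (f : OnePoint ℂ → OnePoint ℂ) (x : OnePoint ℂ) : Prop :=
  ∃ q : ℝ, 1 < q ∧ ∃ᶠ n : ℕ in atTop,
    ∀ᶠ y in 𝓝 x, q ^ n * chord x y ≤ chord (f^[n] x) (f^[n] y)

/-- the step data at the point `q` -/
structure Stp (f : OnePoint ℂ → OnePoint ℂ) (D C R0 : ℝ) (q : OnePoint ℂ) : Prop where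
  D0 : 0 ≤ D
  DC : D ≤ C
  up : ∀ ε : ℝ, 0 < ε → ∀ᶠ y in 𝓝 q, chord (f q) (f y) ≤ (D + ε) * chord q y
  big : 0 < D → ∀ R : ℝ, 0 < R → R ≤ R0 → ∀ W : Set (OnePoint ℂ), IsPreconnected W → q ∈ W →
    (∀ w ∈ W, chord (f w) (f q) ≤ R) → ∀ w ∈ W, chord w q ≤ C * R / D
  lin : 0 < D → ∀ R : ℝ, 0 < R → R ≤ R0 → C * R ≤ D ^ 2 → ∀ W : Set (OnePoint ℂ), IsPreconnected W → q ∈ W →
    (∀ w ∈ W, chord (f w) (f q) ≤ R) → ∀ w ∈ W, chord w q ≤ (1 + C * R / D ^ 2) * (R / D) ∧ ¬ IsCrit f w

end Pool.Agent.H56.UE
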