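import Mathlib

/-!
# Module PSA: barrier circles for `ψ ^ k` (Euclidean)

PROOF. `g z = v1 + ψ z ^ k`, `g' z = k * ψ z ^ (k - 1) * deriv ψ z`. `ψ` is analytic at `z0`: choose `r1 ≤ r / 2` such that `ψ` is differentiable on `ball z0 (4 * r1)` and there are `A0 ≥ 1` with, for `z, w ∈ ball z0 (2 * r1)`: `‖z - w‖ ≤ A0 * ‖ψ z - ψ w‖`, `‖ψ z - ψ w‖ ≤ A0 * ‖z - w‖`, `‖deriv ψ z‖ ≤ A0` (strict derivative at `z0`:
`‖ψ z - ψ w - σ (z - w)‖ ≤ (‖σ‖ / 2) ‖z - w‖` near `z0`, `σ = deriv ψ z0`; `deriv ψ` continuous), `‖ψ z‖ ≤ A0` and `g'' ` is bounded (`g` is analytic at `z0`, so `g'` is Lipschitz near `z0`: `deriv g` is analytic, hence locally Lipschitz: `ContDiffAt.exists_lipschitzOnWith`; mean value inequality on the ball for `w ↦ g w - g' q * w`: `‖g z - g q - g' q (z - q)‖ ≤ A ‖z - q‖ ^ 2`).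
BARRIER. `q ∈ ball z0 r1`, `ζ = ψ q`, `‖g' q‖ ≤ k A0 ‖ζ‖ ^ (k - 1)` (all with the same `A0`). On the circle `‖z - q‖ = t ≤ r1` let `s = ‖ψ z - ζ‖ ∈ [t / A0, A0 t]`. CASE 1: `ρ ≤ c1 ‖ζ‖ ^ k`, `c1 > 0` small (depends on `k`, `A0` only): `t = C2 ρ / ‖ζ‖ ^ (k - 1)` with `C2 = 4 A0`; `s ≤ A0 t ≤ A0 C2 c1 ‖ζ‖ ≤ ‖ζ‖ / (4 k 2 ^ k)`,
`‖ψ z ^ k - ζ ^ k - k ζ ^ (k-1) (ψ z - ζ)‖ ≤ 2 ^ k ‖ζ‖ ^ (k-2) s ^ 2` (`‖ψ z - ζ‖ ≤ ‖ζ‖`; binomial theorem), or simply: `u ^ k - ζ ^ k = (u - ζ) ∑ u ^ i ζ ^ (k-1-i)` with `‖u - ζ‖ ≤ ‖ζ‖ / (4 k 2^k)`, so the sum differs from `k ζ ^ (k-1)` by at most `k ‖ζ‖ ^ (k-1) / 2`: `‖ψ z ^ k - ζ ^ k‖ ≥ (k / 2) ‖ζ‖ ^ (k-1) s ≥ ‖ζ‖ ^ (k-1) t / (2 A0) = 2 ρ > ρ`.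
`t ‖g' q‖ ≤ k A0 C2 ρ`. CASE 2: `ρ > c1 ‖ζ‖ ^ k`: `t = C3 ρ ^ (1 / k)` (real power; `t ^ k = C3 ^ k ρ`), with `C3` so large that `t / A0 ≥ 3 ‖ζ‖` (`‖ζ‖ ^ k < ρ / c1`) and `(C3 / (3 A0)) ^ k ≥ 2`: `s ≥ t / A0 ≥ 3 ‖ζ‖`, `‖ψ z‖ ≥ s - ‖ζ‖ ≥ 2 s / 3`, `‖ψ z ^ k - ζ ^ k‖ ≥ (2 s / 3) ^ k - (s / 3) ^ k ≥ (s / 3) ^ k ≥ (t / (3 A0)) ^ k ≥ 2 ρ > ρ`
(`2 ^ k - 1 ≥ 1`). `(t ‖g' q‖) ^ k ≤ C3 ^ k ρ (k A0) ^ k (‖ζ‖ ^ k) ^ (k-1) ≤ C3 ^ k (k A0) ^ k ρ (ρ / c1) ^ (k-1) ≤ (const ρ) ^ k`. `ρ ≤ ρ0` makes `t ≤ r1` in both cases (case 1: `t = C2 ρ / ‖ζ‖ ^ (k-1) ≤ C2 c1 ‖ζ‖` if one writes `ρ ≤ c1 ‖ζ‖ ^ k`, and also `ρ / ‖ζ‖ ^ (k-1) ≤ const ρ ^ (1/k)`: `‖ζ‖ ^ k ≥ ρ / c1`).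
The case `k = 1` is included (`‖ζ‖ ^ 0 = 1`; only case 1 with `ρ ≤ c1 ‖ζ‖` or case 2: or treat `k = 1` directly: `t = 2 A0 ρ`).
-/

set_option autoImplicit false

open Filter Topology Metric Set

namespace Pool.Agent.H56.UE

private theorem geo {k : ℕ} (hk : 0 < k) : ∃ ε : ℝ, 0 < ε ∧ ε ≤ 1 ∧ ∀ u ζ : ℂ, ζ ≠ 0 →
    ‖u - ζ‖ < ε * ‖ζ‖ → ‖ζ‖ ^ (k - 1) * ‖u - ζ‖ / 2 ≤ ‖u ^ k - ζ ^ k‖ := by
  have hc : Continuous fun w : ℂ => ‖∑ i ∈ Finset.range k, (1 + w) ^ i‖ := by fun_prop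
  have h0 : (1 / 2 : ℝ) < ‖∑ i ∈ Finset.range k, (1 + (0 : ℂ)) ^ i‖ := by
    have h1 : ∑ i ∈ Finset.range k, (1 + (0 : ℂ)) ^ i = (k : ℂ) := by simp
    rw [h1, Complex.norm_natCast]
    have h2 : (1 : ℝ) ≤ k := by exact_mod_cast hk
    linarith
  obtain ⟨δ, hδ, hb⟩ := Metric.eventually_nhds_iff.1 (hc.continuousAt.eventually_const_lt h0)
  refine ⟨min δ 1, by positivity, min_le_right _ _, fun u ζ hζ hu => ?_⟩
  have hζ0 : 0 < ‖ζ‖ := norm_pos_iff.2 hζ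
  obtain ⟨w, hw⟩ : ∃ w, w = (u - ζ) / ζ := ⟨_, rfl⟩
  have hwu : u = ζ * (1 + w) := by
    rw [hw]
    field_simp
    ring
  have hwn : ‖w‖ * ‖ζ‖ = ‖u - ζ‖ := by
    rw [hw, norm_div, div_mul_cancel₀ _ hζ0.ne']
  have hwd : dist w 0 < δ := by
    rw [dist_zero_right]
    have h1 : ‖w‖ * ‖ζ‖ < δ * ‖ζ‖ := by
      rw [hwn]
      exact hu.trans_le (mul_le_mul_of_nonneg_right (min_le_left _ _) hζ0.le)
    exact lt_of_mul_lt_mul_right h1 hζ0.le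
  have h2 : (1 / 2 : ℝ) ≤ ‖∑ i ∈ Finset.range k, (1 + w) ^ i‖ := (hb hwd).le
  have h3 : u ^ k - ζ ^ k = ζ ^ k * ((∑ i ∈ Finset.range k, (1 + w) ^ i) * w) := by
    have h4 := geom_sum_mul (1 + w) k
    rw [add_sub_cancel_left] at h4
    rw [h4, hwu, mul_pow]
    ring
  rw [h3, norm_mul, norm_mul, norm_pow]
  have h5 : ‖ζ‖ ^ k = ‖ζ‖ ^ (k - 1) * ‖ζ‖ := by
    rw [← pow_succ, Nat.sub_add_cancel hk]
  rw [h5, ← hwn]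
  have h6 : 0 ≤ ‖ζ‖ ^ (k - 1) * ‖ζ‖ * ‖w‖ := by positivity
  calc ‖ζ‖ ^ (k - 1) * (‖w‖ * ‖ζ‖) / 2 = ‖ζ‖ ^ (k - 1) * ‖ζ‖ * ‖w‖ * (1 / 2) := by ring
    _ ≤ ‖ζ‖ ^ (k - 1) * ‖ζ‖ * ‖w‖ * ‖∑ i ∈ Finset.range k, (1 + w) ^ i‖ :=
        mul_le_mul_of_nonneg_left h2 h6
    _ = _ := by ring

private theorem bar {k : ℕ} (hk : 0 < k) {A0 : ℝ} (hA0 : 1 ≤ A0) {r1 : ℝ} (hr1 : 0 < r1) :
    ∃ A ρ0 : ℝ, 0 ≤ A ∧ 0 < ρ0 ∧ ∀ (ψ : ℂ → ℂ) (q : ℂ) (G : ℝ), ‖ψ q‖ ≤ A0 * r1 →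
      G ≤ k * A0 * ‖ψ q‖ ^ (k - 1) →
      (∀ z, ‖z - q‖ ≤ r1 → ‖z - q‖ ≤ A0 * ‖ψ z - ψ q‖ ∧ ‖ψ z - ψ q‖ ≤ A0 * ‖z - q‖) →
      ∀ ρ : ℝ, 0 < ρ → ρ ≤ ρ0 → ∃ t : ℝ, 0 < t ∧ t ≤ r1 ∧ t * G ≤ A * ρ ∧
        ∀ z : ℂ, ‖z - q‖ = t → ρ < ‖ψ z ^ k - ψ q ^ k‖ := by
  obtain ⟨ε, hε, hε1, hgeo⟩ := geo hk
  have hA0p : 0 < A0 := by linarith
  obtain ⟨c1, hc1⟩ : ∃ c1, c1 = ε / (8 * A0 ^ 2) := ⟨_, rfl⟩
  have hc1p : 0 < c1 := by rw [hc1]; positivity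
  have hc1e : 4 * A0 ^ 2 * c1 = ε / 2 := by
    rw [hc1]
    field_simp
    norm_num
  obtain ⟨D, hD⟩ : ∃ D, D = max 1 (1 / c1) := ⟨_, rfl⟩
  have hD1 : 1 ≤ D := by rw [hD]; exact le_max_left _ _
  have hDp : 0 < D := by linarith
  have hDc : 1 ≤ c1 * D ^ k := by
    have h1 : 1 / c1 ≤ D := by rw [hD]; exact le_max_right _ _
    have h2 : D ≤ D ^ k := le_self_pow₀ hD1 hk.ne'
    have h3 : 1 / c1 ≤ D ^ k := h1.trans h2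
    rw [div_le_iff₀ hc1p] at h3
    linarith
  have hkR : (1 : ℝ) ≤ k := by exact_mod_cast hk
  have hk0 : (0 : ℝ) ≤ k := by linarith
  refine ⟨k * A0 * (4 * A0) + 6 * A0 * D * (k * A0 * D ^ (k - 1)), (r1 / (6 * A0 * D)) ^ k,
    by positivity, by positivity, fun ψ q G hψq hG hbi ρ hρ hρ0 => ?_⟩
  have hm0 : 0 ≤ ‖ψ q‖ := norm_nonneg _
  have hA1 : 0 ≤ k * A0 * (4 * A0) * ρ := by positivity
  have hA2 : 0 ≤ 6 * A0 * D * (k * A0 * D ^ (k - 1)) * ρ := by positivity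
  by_cases hcase : ρ ≤ c1 * ‖ψ q‖ ^ k
  · have hm : 0 < ‖ψ q‖ := by
      rcases hm0.lt_or_eq with h | h
      · exact h
      · rw [← h, zero_pow hk.ne', mul_zero] at hcase
        linarith
    have hζ : ψ q ≠ 0 := norm_pos_iff.1 hm
    have hmk : 0 < ‖ψ q‖ ^ (k - 1) := by positivity
    have hmm : ‖ψ q‖ ^ k = ‖ψ q‖ ^ (k - 1) * ‖ψ q‖ := by
      rw [← pow_succ, Nat.sub_add_cancel hk]
    obtain ⟨t, ht⟩ : ∃ t, t = 4 * A0 * ρ / ‖ψ q‖ ^ (k - 1) := ⟨_, rfl⟩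
    have htp : 0 < t := by rw [ht]; positivity
    have htm : t * ‖ψ q‖ ^ (k - 1) = 4 * A0 * ρ := by
      rw [ht, div_mul_cancel₀ _ hmk.ne']
    have ht1 : t ≤ 4 * A0 * c1 * ‖ψ q‖ := by
      rw [ht, div_le_iff₀ hmk]
      calc 4 * A0 * ρ ≤ 4 * A0 * (c1 * ‖ψ q‖ ^ k) := by gcongr
        _ = 4 * A0 * c1 * ‖ψ q‖ * ‖ψ q‖ ^ (k - 1) := by rw [hmm]; ring
    have ht2 : A0 * t ≤ ε / 2 * ‖ψ q‖ := by
      calc A0 * t ≤ A0 * (4 * A0 * c1 * ‖ψ q‖) := by gcongr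
        _ = 4 * A0 ^ 2 * c1 * ‖ψ q‖ := by ring
        _ = ε / 2 * ‖ψ q‖ := by rw [hc1e]
    have htr : t ≤ r1 := by
      have h1 : A0 * t ≤ A0 * r1 := by
        calc A0 * t ≤ ε / 2 * ‖ψ q‖ := ht2
          _ ≤ 1 * (A0 * r1) := mul_le_mul (by linarith) hψq hm0 zero_le_one
          _ = A0 * r1 := one_mul _
      exact le_of_mul_le_mul_left h1 hA0p
    refine ⟨t, htp, htr, ?_, fun z hz => ?_⟩
    · calc t * G ≤ t * (k * A0 * ‖ψ q‖ ^ (k - 1)) := by gcongr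
        _ = k * A0 * (t * ‖ψ q‖ ^ (k - 1)) := by ring
        _ = k * A0 * (4 * A0) * ρ := by rw [htm]; ring
        _ ≤ _ := by rw [add_mul]; linarith
    · obtain ⟨b1, b2⟩ := hbi z (by rw [hz]; exact htr)
      rw [hz] at b1 b2
      have h1 : ‖ψ z - ψ q‖ < ε * ‖ψ q‖ := by
        have h2 : 0 < ε * ‖ψ q‖ := by positivity
        linarith
      have h2 := hgeo (ψ z) (ψ q) hζ h1
      have h3 : 4 * ρ ≤ ‖ψ q‖ ^ (k - 1) * ‖ψ z - ψ q‖ := by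
        have h4 : A0 * (4 * ρ) ≤ A0 * (‖ψ q‖ ^ (k - 1) * ‖ψ z - ψ q‖) := by
          calc A0 * (4 * ρ) = t * ‖ψ q‖ ^ (k - 1) := by rw [htm]; ring
            _ ≤ A0 * ‖ψ z - ψ q‖ * ‖ψ q‖ ^ (k - 1) := by gcongr
            _ = _ := by ring
        exact le_of_mul_le_mul_left h4 hA0p
      linarith
  · rw [not_le] at hcase
    obtain ⟨τ, hτ⟩ : ∃ τ : ℝ, τ = ρ ^ ((1 : ℝ) / k) := ⟨_, rfl⟩
    have hτp : 0 < τ := by rw [hτ]; positivity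
    have hτk : τ ^ k = ρ := by
      rw [hτ, ← Real.rpow_natCast, ← Real.rpow_mul hρ.le, one_div_mul_cancel (by linarith),
        Real.rpow_one]
    have hmD : ‖ψ q‖ < D * τ := by
      have h1 : ‖ψ q‖ ^ k < (D * τ) ^ k := by
        rw [mul_pow, hτk]
        have h2 : c1 * ‖ψ q‖ ^ k < c1 * (D ^ k * ρ) := by
          calc c1 * ‖ψ q‖ ^ k < 1 * ρ := by rw [one_mul]; exact hcase
            _ ≤ c1 * D ^ k * ρ := by gcongr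
            _ = c1 * (D ^ k * ρ) := by ring
        exact lt_of_mul_lt_mul_left h2 hc1p.le
      exact lt_of_pow_lt_pow_left₀ k (by positivity) h1
    have htr : 6 * A0 * D * τ ≤ r1 := by
      have h1 : τ ≤ r1 / (6 * A0 * D) := by
        refine le_of_not_gt fun h => ?_
        have h2 : (r1 / (6 * A0 * D)) ^ k < τ ^ k := pow_lt_pow_left₀ h (by positivity) hk.ne'
        rw [hτk] at h2
        linarith
      rw [le_div_iff₀ (by positivity)] at h1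
      linarith
    refine ⟨6 * A0 * D * τ, by positivity, htr, ?_, fun z hz => ?_⟩
    · have h1 : ‖ψ q‖ ^ (k - 1) ≤ (D * τ) ^ (k - 1) := pow_le_pow_left₀ hm0 hmD.le _
      calc 6 * A0 * D * τ * G ≤ 6 * A0 * D * τ * (k * A0 * ‖ψ q‖ ^ (k - 1)) := by gcongr
        _ ≤ 6 * A0 * D * τ * (k * A0 * (D * τ) ^ (k - 1)) := by gcongr
        _ = 6 * A0 * D * (k * A0 * D ^ (k - 1)) * (τ ^ (k - 1) * τ) := by rw [mul_pow]; ring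
        _ = 6 * A0 * D * (k * A0 * D ^ (k - 1)) * ρ := by
            rw [← pow_succ, Nat.sub_add_cancel hk, hτk]
        _ ≤ _ := by rw [add_mul]; linarith
    · obtain ⟨b1, -⟩ := hbi z (by rw [hz]; exact htr)
      rw [hz] at b1
      have h1 : 6 * (D * τ) ≤ ‖ψ z - ψ q‖ := by
        have h2 : A0 * (6 * (D * τ)) ≤ A0 * ‖ψ z - ψ q‖ := by
          calc A0 * (6 * (D * τ)) = 6 * A0 * D * τ := by ring
            _ ≤ _ := b1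
        exact le_of_mul_le_mul_left h2 hA0p
      have h2 : 5 * (D * τ) ≤ ‖ψ z‖ := by
        have h3 := norm_sub_le (ψ z) (ψ q)
        linarith
      have hDτ : 0 < D * τ := by positivity
      have h3 : (5 * (D * τ)) ^ k ≤ ‖ψ z‖ ^ k := pow_le_pow_left₀ (by positivity) h2 _
      have h4 : 5 * (D * τ) ^ k ≤ (5 * (D * τ)) ^ k := by
        rw [mul_pow 5 (D * τ) k]
        have : (5 : ℝ) ≤ 5 ^ k := le_self_pow₀ (by norm_num) hk.ne'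
        exact mul_le_mul_of_nonneg_right this (by positivity)
      have h5 : ‖ψ q‖ ^ k ≤ (D * τ) ^ k := pow_le_pow_left₀ hm0 hmD.le _
      have h6 : ρ ≤ (D * τ) ^ k := by
        rw [mul_pow, hτk]
        have : 1 ≤ D ^ k := one_le_pow₀ hD1
        calc ρ = 1 * ρ := (one_mul _).symm
          _ ≤ D ^ k * ρ := mul_le_mul_of_nonneg_right this hρ.le
      have h7 := norm_sub_norm_le (ψ z ^ k) (ψ q ^ k)
      rw [norm_pow, norm_pow] at h7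
      linarith

theorem psa {ψ : ℂ → ℂ} {z0 : ℂ} {k : ℕ} (hk : 0 < k) (hψ : AnalyticAt ℂ ψ z0) (h0 : ψ z0 = 0)
    (h1 : deriv ψ z0 ≠ 0) (v1 : ℂ) {r : ℝ} (hr : 0 < r) :
    ∃ (A r1 ρ0 : ℝ) (g' : ℂ → ℂ), 1 ≤ A ∧ 0 < r1 ∧ 2 * r1 ≤ r ∧ 0 < ρ0 ∧
      (∀ z ∈ ball z0 (2 * r1), HasDerivAt (fun z => v1 + ψ z ^ k) (g' z) z) ∧
      ∀ q ∈ ball z0 r1, ‖g' q‖ ≤ A ∧
        (∀ z ∈ ball z0 (2 * r1), ‖g' z - g' q‖ ≤ A * ‖z - q‖ ∧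
          ‖ψ z ^ k - ψ q ^ k - g' q * (z - q)‖ ≤ A * ‖z - q‖ ^ 2) ∧
        ∀ ρ : ℝ, 0 < ρ → ρ ≤ ρ0 → ∃ t : ℝ, 0 < t ∧ t ≤ r1 ∧ t * ‖g' q‖ ≤ A * ρ ∧
          ∀ z : ℂ, ‖z - q‖ = t → ρ < ‖ψ z ^ k - ψ q ^ k‖ := by
  obtain ⟨σ, hσ⟩ : ∃ σ, σ = ‖deriv ψ z0‖ := ⟨_, rfl⟩
  have hσp : 0 < σ := by rw [hσ]; exact norm_pos_iff.2 h1
  have hg : AnalyticAt ℂ (fun z => v1 + ψ z ^ k) z0 := analyticAt_const.add (hψ.pow k)
  obtain ⟨K, s, hs, hK⟩ := (hg.deriv.contDiffAt (n := 1)).exists_lipschitzOnWith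
  have hst : HasStrictDerivAt ψ (deriv ψ z0) z0 := hψ.hasStrictDerivAt
  have hlo := hst.hasStrictFDerivAt.isLittleO.def (half_pos hσp)
  obtain ⟨δ1, hδ1, hd1⟩ := Metric.eventually_nhds_iff.1 hlo
  obtain ⟨δ2, hδ2, hd2⟩ := Metric.eventually_nhds_iff.1 hψ.eventually_analyticAt
  obtain ⟨δ3, hδ3, hd3⟩ := Metric.mem_nhds_iff.1 hs
  obtain ⟨r1, hr1e⟩ : ∃ r1, r1 = min (min δ1 δ2) (min δ3 r) / 2 := ⟨_, rfl⟩
  have hmin : 0 < min (min δ1 δ2) (min δ3 r) := by positivity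
  have hr1 : 0 < r1 := by rw [hr1e]; positivity
  have hr1d1 : 2 * r1 ≤ δ1 := by
    rw [hr1e, mul_div_cancel₀ _ two_ne_zero]
    exact (min_le_left _ _).trans (min_le_left _ _)
  have hr1d2 : 2 * r1 ≤ δ2 := by
    rw [hr1e, mul_div_cancel₀ _ two_ne_zero]
    exact (min_le_left _ _).trans (min_le_right _ _)
  have hr1d3 : 2 * r1 ≤ δ3 := by
    rw [hr1e, mul_div_cancel₀ _ two_ne_zero]
    exact (min_le_right _ _).trans (min_le_left _ _)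
  have hr1r : 2 * r1 ≤ r := by
    rw [hr1e, mul_div_cancel₀ _ two_ne_zero]
    exact (min_le_right _ _).trans (min_le_right _ _)
  have hsub : ball z0 r1 ⊆ ball z0 (2 * r1) := ball_subset_ball (by linarith)
  obtain ⟨A0, hA0e⟩ : ∃ A0, A0 = max 1 (max (2 / σ) (2 * σ)) := ⟨_, rfl⟩
  have hA0 : 1 ≤ A0 := by rw [hA0e]; exact le_max_left _ _
  have hA0a : 2 / σ ≤ A0 := by
    rw [hA0e]
    exact (le_max_left _ _).trans (le_max_right _ _)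
  have hA0b : 2 * σ ≤ A0 := by
    rw [hA0e]
    exact (le_max_right _ _).trans (le_max_right _ _)
  have hbi : ∀ z ∈ ball z0 (2 * r1), ∀ w ∈ ball z0 (2 * r1),
      ‖z - w‖ ≤ A0 * ‖ψ z - ψ w‖ ∧ ‖ψ z - ψ w‖ ≤ A0 * ‖z - w‖ := by
    intro z hz w hw
    have h2 := @hd1 (z, w) (by
      rw [Prod.dist_eq]
      exact max_lt ((mem_ball.1 hz).trans_le hr1d1) ((mem_ball.1 hw).trans_le hr1d1))
    have h3 : ‖ψ z - ψ w - (z - w) * deriv ψ z0‖ ≤ σ / 2 * ‖z - w‖ := by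
      simpa using h2
    have h4 : ‖(z - w) * deriv ψ z0‖ = σ * ‖z - w‖ := by
      rw [norm_mul, ← hσ, mul_comm]
    have h5 := norm_sub_norm_le ((z - w) * deriv ψ z0) (ψ z - ψ w)
    rw [norm_sub_rev ((z - w) * deriv ψ z0) (ψ z - ψ w), h4] at h5
    have h6 := norm_sub_norm_le (ψ z - ψ w) ((z - w) * deriv ψ z0)
    rw [h4] at h6
    have hzw : 0 ≤ ‖z - w‖ := norm_nonneg _
    constructor
    · have h7 : σ / 2 * ‖z - w‖ ≤ ‖ψ z - ψ w‖ := by linarith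
      calc ‖z - w‖ = 2 / σ * (σ / 2 * ‖z - w‖) := by field_simp
        _ ≤ A0 * ‖ψ z - ψ w‖ := mul_le_mul hA0a h7 (by positivity) (by linarith)
    · calc ‖ψ z - ψ w‖ ≤ 2 * σ * ‖z - w‖ := by nlinarith
        _ ≤ A0 * ‖z - w‖ := by gcongr
  have han : ∀ z ∈ ball z0 (2 * r1), AnalyticAt ℂ ψ z := fun z hz =>
    hd2 ((mem_ball.1 hz).trans_le hr1d2)
  have hψd : ∀ z ∈ ball z0 (2 * r1), ‖deriv ψ z‖ ≤ A0 := by
    intro z hz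
    refine norm_deriv_le_of_lip' (by linarith) ?_
    filter_upwards [isOpen_ball.mem_nhds hz] with w hw
    exact (hbi w hw z hz).2
  obtain ⟨g', hg'⟩ : ∃ g' : ℂ → ℂ, g' = deriv fun z => v1 + ψ z ^ k := ⟨_, rfl⟩
  have hgd : ∀ z ∈ ball z0 (2 * r1), HasDerivAt (fun z => v1 + ψ z ^ k) (g' z) z := by
    intro z hz
    rw [hg']
    exact (analyticAt_const.add ((han z hz).pow k)).differentiableAt.hasDerivAt
  have hg'e : ∀ z ∈ ball z0 (2 * r1), g' z = k * ψ z ^ (k - 1) * deriv ψ z := by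
    intro z hz
    have h2 : HasDerivAt (fun z => v1 + ψ z ^ k) (k * ψ z ^ (k - 1) * deriv ψ z) z :=
      ((han z hz).differentiableAt.hasDerivAt.pow k).const_add v1
    exact (hgd z hz).unique h2
  have hlip : ∀ z ∈ ball z0 (2 * r1), ∀ w ∈ ball z0 (2 * r1), ‖g' z - g' w‖ ≤ K * ‖z - w‖ := by
    intro z hz w hw
    have h2 := hK.dist_le_mul z (hd3 (ball_subset_ball hr1d3 hz)) w (hd3 (ball_subset_ball hr1d3 hw))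
    rw [dist_eq_norm, dist_eq_norm] at h2
    rw [hg']
    exact h2
  have hK0 : (0 : ℝ) ≤ K := K.2
  have hz0 : z0 ∈ ball z0 (2 * r1) := mem_ball_self (by linarith)
  obtain ⟨A1, ρ0, hA1, hρ0, hbar⟩ := bar hk hA0 hr1
  refine ⟨1 + (‖g' z0‖ + K * r1) + K + A1, r1, ρ0, g', ?_, hr1, hr1r, hρ0, hgd, fun q hq => ?_⟩
  · have : 0 ≤ ‖g' z0‖ + K * r1 := by positivity
    linarith
  have hq2 := hsub hq
  have hqd : ‖q - z0‖ < r1 := by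
    rw [← dist_eq_norm]
    exact mem_ball.1 hq
  refine ⟨?_, fun z hz => ⟨?_, ?_⟩, ?_⟩
  · have h2 := hlip q hq2 z0 hz0
    have h3 : (K : ℝ) * ‖q - z0‖ ≤ K * r1 := by gcongr
    have h4 := norm_sub_norm_le (g' q) (g' z0)
    linarith
  · have h2 := hlip z hz q hq2
    have h3 : 0 ≤ ‖g' z0‖ + K * r1 := by positivity
    refine h2.trans ?_
    gcongr
    linarith
  · have hconv : Convex ℝ (segment ℝ q z) := convex_segment q z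
    have hseg : segment ℝ q z ⊆ ball z0 (2 * r1) := (convex_ball z0 (2 * r1)).segment_subset hq2 hz
    have h2 := hconv.norm_image_sub_le_of_norm_hasDerivWithin_le
      (f := fun w => v1 + ψ w ^ k - g' q * w) (f' := fun w => g' w - g' q) (C := K * ‖z - q‖)
      (fun w hw => (((hgd w (hseg hw)).sub ((hasDerivAt_id w).const_mul (g' q))).congr_deriv
        (by rw [mul_one])).hasDerivWithinAt)
      (fun w hw => by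
        refine (hlip w (hseg hw) q hq2).trans ?_
        gcongr
        exact norm_sub_le_of_mem_segment hw) (left_mem_segment ℝ q z) (right_mem_segment ℝ q z)
    have h3 : ψ z ^ k - ψ q ^ k - g' q * (z - q) =
        (v1 + ψ z ^ k - g' q * z) - (v1 + ψ q ^ k - g' q * q) := by ring
    rw [h3]
    refine h2.trans ?_
    have h4 : 0 ≤ ‖g' z0‖ + K * r1 := by positivity
    calc K * ‖z - q‖ * ‖z - q‖ = K * ‖z - q‖ ^ 2 := by ring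
      _ ≤ _ := by
        gcongr
        linarith
  · intro ρ hρ hρ1
    obtain ⟨t, ht1, ht2, ht3, ht4⟩ := hbar ψ q ‖g' q‖ (by
        have h2 := (hbi q hq2 z0 hz0).2
        rw [h0, sub_zero] at h2
        refine h2.trans ?_
        gcongr) (by
        rw [hg'e q hq2, norm_mul, norm_mul, norm_pow, Complex.norm_natCast]
        have h2 := hψd q hq2
        calc (k : ℝ) * ‖ψ q‖ ^ (k - 1) * ‖deriv ψ q‖ ≤ k * ‖ψ q‖ ^ (k - 1) * A0 := by gcongr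
          _ = _ := by ring)
      (fun z hz => by
        refine hbi z ?_ q hq2
        rw [mem_ball, dist_eq_norm]
        have h2 := norm_sub_le_norm_sub_add_norm_sub z q z0
        linarith) ρ hρ hρ1
    refine ⟨t, ht1, ht2, ht3.trans ?_, ht4⟩
    have h4 : 0 ≤ ‖g' z0‖ + K * r1 := by positivity
    gcongr
    linarith

end Pool.Agent.H56.UE
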