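import Pool.Agent.H56.UE.Defs
import Pool.Agent.H56.UE.PSA
import Pool.Agent.H44.RC.LOCF

/-!
# Module PSB: the step lemma near one point of the sphere

PROOF. `f = rat P Q`. `io_ex` (H44/RC/IOC): `p = io τ z0`, `‖z0‖ ≤ 1`, `f p = io σ v1`, `‖v1‖ ≤ 1`. `loc_form` (H44/RC/LOCF): `k, ψ` with `f (io τ z) = io σ (g z)`, `g z = v1 + ψ z ^ k`, for `z ∈ ball z0 r`, `r ≤ 1`, and (smaller `r`) `‖ψ z ^ k‖ ≤ 1` there (continuity, `ψ z0 = 0`). `psa`: `A, r1, ρ0, g'`. `U = io τ '' ball z0 r1` (open: `io_emb`).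
`ch x y = ‖x - y‖ / (√(1 + ‖x‖²) √(1 + ‖y‖²)) = chord (io τ x) (io τ y)` (`chord_io`, any `τ`). All points `z ∈ ball z0 (2 r1)` have `‖z‖ ≤ 2`, `‖g z‖ ≤ 2`, so `√(1 + ‖·‖²) ∈ [1, 3]` and `‖x - y‖ / 9 ≤ ch x y ≤ ‖x - y‖` for these points and for their values. `q = io τ w`, `D = ‖g' w‖ (1 + ‖w‖²) / (1 + ‖g w‖²)`, so `‖g' w‖ / 9 ≤ D ≤ 9 ‖g' w‖ ≤ 9 A`.
`up`: for `y = io τ z`, `z → w`: `‖g z - g w‖ ≤ (‖g' w‖ + A ‖z - w‖) ‖z - w‖`, so `chord (f q) (f y) ≤ F z * chord q y` with `F z = (‖g' w‖ + A ‖z - w‖) √(1 + ‖w‖²) √(1 + ‖z‖²) / (√(1 + ‖g w‖²) √(1 + ‖g z‖²))` continuous at `w`, `F w = D`: eventually `F z < D + ε`.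
BARRIER: if `t ≤ r1` and `ρ < ‖g z - g w‖` on the circle `‖z - w‖ = t`, with `ρ = 9 R`, then `R < chord (f (io τ z)) (f q)` there, so a preconnected `W ∋ q` with `chord (f x) (f q) ≤ R` on `W` is disjoint from `io τ '' sphere w t`, so contained in the union of the disjoint open sets `io τ '' ball w t` and `(io τ '' closedBall w t)ᶜ` (the image of a compact set is closed),
so in the first one (`IsPreconnected.subset_left_of_subset_union` or so). `big`: `t` from `psa` with `ρ = 9 R ≤ ρ0` (`R0 = ρ0 / 9`): for `x = io τ z ∈ W`: `chord x q ≤ ‖z - w‖ ≤ t ≤ A ρ / ‖g' w‖ ≤ 81 A R / D`. `lin`: `t = 18 R / ‖g' w‖` and `C R ≤ D ^ 2` with `C` large: on the circle `‖g z - g w‖ ≥ ‖g' w‖ t - A t ^ 2 = 18 R - A t ^ 2 > 9 R` because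
`A t ^ 2 = 324 A R ^ 2 / ‖g' w‖ ^ 2 ≤ 324 * 81 * A R ^ 2 / D ^ 2 < 9 R`; `t ≤ r1` (`R ≤ D ^ 2 / C ≤ 81 ‖g' w‖ ^ 2 / C`, `‖g' w‖ ≤ A`). For `x = io τ z ∈ W`, `τ0 = ‖z - w‖ < t`: `g' z ≠ 0` as `‖g' z - g' w‖ ≤ A t < ‖g' w‖`; so `g` is injective near `z` (`HasStrictDerivAt` / analytic with nonzero derivative; `g` is differentiable on the ball: `AnalyticAt`), and
`f` is injective on the neighbourhood `io τ '' N` of `x` (`io σ`, `io τ` injective): `¬ IsCrit f x`. Sharp bound: `‖g' w‖ τ0 ≤ ‖g z - g w‖ + A τ0 ^ 2`, so `‖g' w‖ τ0 (1 - A τ0 / ‖g' w‖) ≤ ‖g z - g w‖`; `chord x q * D = τ0 ‖g' w‖ √(1 + ‖w‖²) / (√(1 + ‖z‖²) (1 + ‖g w‖²))` and `R ≥ chord (f x) (f q) = ‖g z - g w‖ / (√(1 + ‖g z‖²) √(1 + ‖g w‖²))`, so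
`chord x q * D ≤ R * (1 - A τ0 / ‖g' w‖)⁻¹ * (√(1 + ‖w‖²) / √(1 + ‖z‖²)) * (√(1 + ‖g z‖²) / √(1 + ‖g w‖²))`; `x ↦ √(1 + ‖x‖²)` is 1-Lipschitz and `≥ 1`, so the three factors are at most `1 + const τ0 / ‖g' w‖` each (`‖g z - g w‖ ≤ 3 A τ0`, `‖g' w‖ ≤ A`), and `τ0 / ‖g' w‖ ≤ t / ‖g' w‖ = 18 R / ‖g' w‖ ^ 2 ≤ 18 * 81 R / D ^ 2`: the product is at most `1 + C R / D ^ 2`
for `C` large. (`(1 + a) (1 + b) (1 + c) ≤ 1 + 7 (a + b + c)` for `a, b, c ∈ [0, 1]`.)
-/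

set_option autoImplicit false

open Filter Topology Metric Set Polynomial

namespace Pool.Agent.H56.UE

open Pool.Agent.H44.Fatou (rat)
open Pool.Agent.H35.EX (chord)
open Pool.Agent.H32.BT (IsCrit)
open Pool.Agent.H44.RC

private theorem jj_ge (z : ℂ) : 1 ≤ √(1 + ‖z‖ ^ 2) := by
  rw [Real.one_le_sqrt]
  nlinarith [sq_nonneg ‖z‖]

private theorem jj_le {z : ℂ} (h : ‖z‖ ≤ 2) : √(1 + ‖z‖ ^ 2) ≤ 3 := by
  rw [Real.sqrt_le_left (by norm_num)]
  nlinarith [norm_nonneg z]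

private theorem jj_lip (z w : ℂ) : √(1 + ‖z‖ ^ 2) ≤ √(1 + ‖w‖ ^ 2) + ‖z - w‖ := by
  obtain ⟨B, hB⟩ : ∃ B, B = √(1 + ‖w‖ ^ 2) := ⟨_, rfl⟩
  have hB1 : 1 ≤ B := by rw [hB]; exact jj_ge w
  have hB2 : B ^ 2 = 1 + ‖w‖ ^ 2 := by rw [hB, Real.sq_sqrt (by positivity)]
  rw [← hB]
  have hwB : ‖w‖ ≤ B := by nlinarith [norm_nonneg w]
  have h1 : ‖z‖ ≤ ‖w‖ + ‖z - w‖ := by
    calc ‖z‖ = ‖w + (z - w)‖ := by rw [add_sub_cancel]
      _ ≤ ‖w‖ + ‖z - w‖ := norm_add_le _ _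
  rw [Real.sqrt_le_left (by positivity)]
  nlinarith [norm_nonneg w, norm_nonneg z, norm_nonneg (z - w)]

private theorem bar {τ : Bool} {w : ℂ} {t : ℝ} (ht : 0 < t) {W : Set (OnePoint ℂ)} (hW : IsPreconnected W)
    (hq : io τ w ∈ W) (hd : ∀ z : ℂ, ‖z - w‖ = t → io τ z ∉ W) : W ⊆ io τ '' ball w t := by
  have ho : IsOpen (io τ '' ball w t) := (io_emb τ).isOpenMap _ isOpen_ball
  have hc : IsClosed (io τ '' closedBall w t) := (cbar_cpt τ w t).isClosed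
  refine hW.subset_left_of_subset_union ho hc.isOpen_compl ?_ ?_ ⟨io τ w, hq, w, mem_ball_self ht, rfl⟩
  · rw [Set.disjoint_compl_right_iff_subset]
    exact image_mono ball_subset_closedBall
  · intro x hx
    by_cases h : x ∈ io τ '' closedBall w t
    · left
      obtain ⟨z, hz, rfl⟩ := h
      refine ⟨z, ?_, rfl⟩
      rw [mem_closedBall, dist_eq_norm] at hz
      rw [mem_ball, dist_eq_norm]
      rcases hz.lt_or_eq with h1 | h1
      · exact h1
      · exact absurd hx (hd z h1)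
    · right
      exact h

private theorem notcrit {f : OnePoint ℂ → OnePoint ℂ} {τ σ : Bool} {g : ℂ → ℂ} {z c : ℂ}
    (hf : ∀ᶠ y in 𝓝 z, f (io τ y) = io σ (g y)) (hg : HasStrictDerivAt g c z) (hc : c ≠ 0) :
    ¬ IsCrit f (io τ z) := by
  unfold IsCrit
  rw [not_not]
  have h1 := hg.eventually_left_inverse hc
  have h2 := hf.and h1
  refine ⟨io τ '' {y | f (io τ y) = io σ (g y) ∧ hg.localInverse g c z hc (g y) = y}, ?_, ?_⟩
  · rw [← (io_emb τ).map_nhds_eq z]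
    exact image_mem_map h2
  · rintro _ ⟨x, ⟨hx1, hx2⟩, rfl⟩ _ ⟨y, ⟨hy1, hy2⟩, rfl⟩ h
    rw [hx1, hy1] at h
    have h3 := io_inj σ h
    rw [← hx2, ← hy2, h3]

/-- real arithmetic for the sharp bound -/
private theorem sharp_ar {a A R t e m jw jz jgw jgz : ℝ} (ha : 0 < a) (hA : 1 ≤ A) (haA : a ≤ A)
    (he0 : 0 ≤ e) (hte : t = a * e) (hAe : 36 * A ^ 2 * R ≤ a ^ 2) (he : e ≤ 18 * R / a ^ 2)
    (hm0 : 0 ≤ m) (hm1 : a * t ≤ m + A * t ^ 2) (hm2 : m ≤ 2 * A * t)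
    (hjw : 1 ≤ jw) (hjz : 1 ≤ jz) (hjgw : 1 ≤ jgw)
    (h1 : jw ≤ jz + t) (h2 : jgz ≤ jgw + m) (hR : m ≤ R * (jgw * jgz)) (hR0 : 0 < R) :
    t * a * jw / (jz * jgw ^ 2) ≤ (1 + 252 * A ^ 2 * R / a ^ 2) * R := by
  have ha2 : 0 < a ^ 2 := by positivity
  obtain ⟨s, hs⟩ : ∃ s, s = 2 * A ^ 2 * e := ⟨_, rfl⟩
  have hs0 : 0 ≤ s := by rw [hs]; positivity
  have hs1 : 7 * s ≤ 252 * A ^ 2 * R / a ^ 2 := by
    have h3 : s ≤ 2 * A ^ 2 * (18 * R / a ^ 2) := by
      rw [hs]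
      exact mul_le_mul_of_nonneg_left he (by positivity)
    calc 7 * s ≤ 7 * (2 * A ^ 2 * (18 * R / a ^ 2)) := by linarith
      _ = 252 * A ^ 2 * R / a ^ 2 := by ring
  have hs2 : s ≤ 1 := by
    have h3 : 252 * A ^ 2 * R / a ^ 2 ≤ 7 := by
      rw [div_le_iff₀ ha2]
      nlinarith
    linarith
  have hA2 : A ≤ A ^ 2 := by nlinarith
  have hAe2 : 2 * (A * e) ≤ s := by
    rw [hs]
    nlinarith
  have hts : t ≤ s := by
    rw [hte]
    nlinarith
  have ht0 : 0 ≤ t := by rw [hte]; positivity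
  have hms : m ≤ s := by
    have : m ≤ 2 * A * (A * e) := by
      refine hm2.trans ?_
      rw [hte]
      have : a * e ≤ A * e := mul_le_mul_of_nonneg_right haA he0
      nlinarith
    rw [hs]
    nlinarith
  have hk : a * t ≤ m * (1 + s) := by
    have h3 : A * t ^ 2 = a * t * (A * e) := by rw [hte]; ring
    have h4 : a * t * (1 - A * e) ≤ m := by rw [h3] at hm1; linarith
    have hAe0 : 0 ≤ A * e := by positivity
    have h5 : (1 : ℝ) ≤ (1 - A * e) * (1 + s) := by nlinarith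
    have h6 : 0 ≤ a * t := by positivity
    calc a * t = a * t * 1 := by ring
      _ ≤ a * t * ((1 - A * e) * (1 + s)) := mul_le_mul_of_nonneg_left h5 h6
      _ = (a * t * (1 - A * e)) * (1 + s) := by ring
      _ ≤ m * (1 + s) := mul_le_mul_of_nonneg_right h4 (by linarith)
  have h7 : jw ≤ jz * (1 + s) := by nlinarith
  have h8 : jgz ≤ jgw * (1 + s) := by nlinarith
  rw [div_le_iff₀ (by positivity)]
  calc t * a * jw ≤ (m * (1 + s)) * (jz * (1 + s)) := by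
        have := mul_le_mul hk h7 (by linarith) (by positivity)
        linarith
    _ ≤ ((R * (jgw * (jgw * (1 + s)))) * (1 + s)) * (jz * (1 + s)) := by
        have h9 : m ≤ R * (jgw * (jgw * (1 + s))) := by
          refine hR.trans ?_
          have : jgw * jgz ≤ jgw * (jgw * (1 + s)) := mul_le_mul_of_nonneg_left h8 (by linarith)
          exact mul_le_mul_of_nonneg_left this hR0.le
        have h10 : m * (1 + s) ≤ (R * (jgw * (jgw * (1 + s)))) * (1 + s) :=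
          mul_le_mul_of_nonneg_right h9 (by linarith)
        exact mul_le_mul_of_nonneg_right h10 (by positivity)
    _ = (1 + s) ^ 3 * (R * (jz * jgw ^ 2)) := by ring
    _ ≤ (1 + 7 * s) * (R * (jz * jgw ^ 2)) := by
        refine mul_le_mul_of_nonneg_right ?_ (by positivity)
        nlinarith [mul_nonneg hs0 hs0, mul_nonneg hs0 (sub_nonneg.2 hs2), mul_nonneg (mul_nonneg hs0 hs0) (sub_nonneg.2 hs2)]
    _ ≤ (1 + 252 * A ^ 2 * R / a ^ 2) * (R * (jz * jgw ^ 2)) := by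
        refine mul_le_mul_of_nonneg_right ?_ (by positivity)
        linarith
    _ = (1 + 252 * A ^ 2 * R / a ^ 2) * R * (jz * jgw ^ 2) := by ring

private theorem stp_loc {f : OnePoint ℂ → OnePoint ℂ} {τ σ : Bool} {g g' : ℂ → ℂ} {A r1 ρ0 C : ℝ} {w : ℂ}
    (hA : 1 ≤ A) (hr1 : 0 < r1) (hr2 : r1 ≤ 1) (hC1 : 20412 * A ^ 2 ≤ C)
    (hC2 : 1458 * A ≤ C * r1)
    (hz2 : ∀ z ∈ closedBall w r1, ‖z‖ ≤ 2 ∧ ‖g z‖ ≤ 2)
    (hf : ∀ z ∈ closedBall w r1, ∀ᶠ y in 𝓝 z, f (io τ y) = io σ (g y))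
    (hder : ∀ z ∈ closedBall w r1, HasStrictDerivAt g (g' z) z)
    (hga : ‖g' w‖ ≤ A)
    (hlip : ∀ z ∈ closedBall w r1, ‖g' z - g' w‖ ≤ A * ‖z - w‖ ∧
      ‖g z - g w - g' w * (z - w)‖ ≤ A * ‖z - w‖ ^ 2)
    (hbar : ∀ ρ : ℝ, 0 < ρ → ρ ≤ ρ0 → ∃ t : ℝ, 0 < t ∧ t ≤ r1 ∧ t * ‖g' w‖ ≤ A * ρ ∧
      ∀ z : ℂ, ‖z - w‖ = t → ρ < ‖g z - g w‖) :
    Stp f (‖g' w‖ * √(1 + ‖w‖ ^ 2) ^ 2 / √(1 + ‖g w‖ ^ 2) ^ 2) C (ρ0 / 9) (io τ w) := by
  have hwm : w ∈ closedBall w r1 := mem_closedBall_self hr1.le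
  obtain ⟨hw2, hgw2⟩ := hz2 w hwm
  obtain ⟨jw, hjw⟩ : ∃ jw, jw = √(1 + ‖w‖ ^ 2) := ⟨_, rfl⟩
  obtain ⟨jg, hjg⟩ : ∃ jg, jg = √(1 + ‖g w‖ ^ 2) := ⟨_, rfl⟩
  have hjw1 : 1 ≤ jw := by rw [hjw]; exact jj_ge w
  have hjg1 : 1 ≤ jg := by rw [hjg]; exact jj_ge _
  have hjw3 : jw ≤ 3 := by rw [hjw]; exact jj_le hw2
  have hjg3 : jg ≤ 3 := by rw [hjg]; exact jj_le hgw2
  obtain ⟨a, ha⟩ : ∃ a, a = ‖g' w‖ := ⟨_, rfl⟩
  have ha0 : 0 ≤ a := by rw [ha]; exact norm_nonneg _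
  have haA : a ≤ A := by rw [ha]; exact hga
  obtain ⟨D, hD⟩ : ∃ D, D = a * jw ^ 2 / jg ^ 2 := ⟨_, rfl⟩
  rw [← hjw, ← hjg, ← ha, ← hD]
  have hD0 : 0 ≤ D := by rw [hD]; positivity
  have hD9 : D ≤ 9 * a := by
    rw [hD, div_le_iff₀ (by positivity)]
    have h1 : jw ^ 2 ≤ 9 := by nlinarith
    have h2 : 1 ≤ jg ^ 2 := by nlinarith
    calc a * jw ^ 2 ≤ a * 9 := mul_le_mul_of_nonneg_left h1 ha0
      _ = 9 * a * 1 := by ring
      _ ≤ 9 * a * jg ^ 2 := mul_le_mul_of_nonneg_left h2 (by positivity)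
  have haD : a ≤ 9 * D := by
    rw [hD, mul_div_assoc', le_div_iff₀ (by positivity)]
    have h1 : jg ^ 2 ≤ 9 := by nlinarith
    have h2 : 1 ≤ jw ^ 2 := by nlinarith
    calc a * jg ^ 2 ≤ a * 9 := mul_le_mul_of_nonneg_left h1 ha0
      _ = 9 * a * 1 := by ring
      _ ≤ 9 * a * jw ^ 2 := mul_le_mul_of_nonneg_left h2 (by positivity)
      _ = 9 * (a * jw ^ 2) := by ring
  have hA2 : A ≤ A ^ 2 := by nlinarith
  have hfv : ∀ z ∈ closedBall w r1, f (io τ z) = io σ (g z) := fun z hz => (hf z hz).self_of_nhds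
  have hfw := hfv w hwm
  -- barrier
  have hbr : ∀ R t : ℝ, 0 < R → 0 < t → t ≤ r1 → (∀ z : ℂ, ‖z - w‖ = t → 9 * R < ‖g z - g w‖) →
      ∀ W : Set (OnePoint ℂ), IsPreconnected W → io τ w ∈ W →
      (∀ x ∈ W, chord (f x) (f (io τ w)) ≤ R) → W ⊆ io τ '' ball w t := by
    intro R t hR ht htr hc W hW hq hWR
    refine bar ht hW hq ?_
    intro z hz hzW
    have hzm : z ∈ closedBall w r1 := by
      rw [mem_closedBall, dist_eq_norm, hz]; exact htr
    have h1 := hWR _ hzW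
    rw [hfv z hzm, hfw, chord_io] at h1
    have h2 := jj_le (hz2 z hzm).2
    have h3 := jj_le hgw2
    have h4 := jj_ge (g z)
    have h5 := jj_ge (g w)
    rw [div_le_iff₀ (by positivity)] at h1
    have h6 := hc z hz
    have h7 : √(1 + ‖g z‖ ^ 2) * √(1 + ‖g w‖ ^ 2) ≤ 3 * 3 :=
      mul_le_mul h2 h3 (by linarith) (by norm_num)
    have h8 := mul_le_mul_of_nonneg_left h7 hR.le
    linarith
  refine ⟨hD0, ?_, ?_, ?_, ?_⟩
  · have := sq_nonneg A
    linarith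
  · -- up
    intro ε hε
    rw [← (io_emb τ).map_nhds_eq w, eventually_map]
    have hgc : ContinuousAt g w := (hder w hwm).hasDerivAt.continuousAt
    have hF : ContinuousAt (fun z : ℂ => (a + A * ‖z - w‖) * (jw * √(1 + ‖z‖ ^ 2)) /
        (jg * √(1 + ‖g z‖ ^ 2))) w := by
      refine ContinuousAt.div ?_ ?_ ?_
      · refine ContinuousAt.mul ?_ ?_
        · fun_prop
        · refine continuousAt_const.mul ?_
          exact ContinuousAt.sqrt (by fun_prop)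
      · refine continuousAt_const.mul ?_
        exact ContinuousAt.sqrt (continuousAt_const.add (hgc.norm.pow 2))
      · have := jj_ge (g w)
        positivity
    have hFw : (fun z : ℂ => (a + A * ‖z - w‖) * (jw * √(1 + ‖z‖ ^ 2)) /
        (jg * √(1 + ‖g z‖ ^ 2))) w < D + ε := by
      simp only [sub_self, norm_zero, mul_zero, add_zero]
      rw [← hjw, ← hjg, ← pow_two, ← pow_two, ← hD]
      linarith
    have h1 := hF.eventually (gt_mem_nhds hFw)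
    filter_upwards [h1, closedBall_mem_nhds w hr1] with z hz1 hz2
    rw [hfv z hz2, hfw, chord_io, chord_io, ← hjw, ← hjg]
    have hlz := (hlip z hz2).2
    rw [norm_sub_rev w z, norm_sub_rev (g w) (g z)]
    have hjz := jj_ge z
    have hjgz := jj_ge (g z)
    have h2 : ‖g z - g w‖ ≤ (a + A * ‖z - w‖) * ‖z - w‖ := by
      have h3 : g z - g w = (g z - g w - g' w * (z - w)) + g' w * (z - w) := by ring
      calc ‖g z - g w‖ = ‖(g z - g w - g' w * (z - w)) + g' w * (z - w)‖ := by rw [← h3]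
        _ ≤ ‖g z - g w - g' w * (z - w)‖ + ‖g' w * (z - w)‖ := norm_add_le _ _
        _ ≤ A * ‖z - w‖ ^ 2 + a * ‖z - w‖ := by rw [norm_mul, ← ha]; linarith
        _ = (a + A * ‖z - w‖) * ‖z - w‖ := by ring
    have h4 : ‖g z - g w‖ / (jg * √(1 + ‖g z‖ ^ 2)) ≤
        ((a + A * ‖z - w‖) * (jw * √(1 + ‖z‖ ^ 2)) / (jg * √(1 + ‖g z‖ ^ 2))) *
          (‖z - w‖ / (jw * √(1 + ‖z‖ ^ 2))) := by
      have h5 : ((a + A * ‖z - w‖) * (jw * √(1 + ‖z‖ ^ 2)) / (jg * √(1 + ‖g z‖ ^ 2))) *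
          (‖z - w‖ / (jw * √(1 + ‖z‖ ^ 2))) = (a + A * ‖z - w‖) * ‖z - w‖ / (jg * √(1 + ‖g z‖ ^ 2)) := by
        have h6 : jw * √(1 + ‖z‖ ^ 2) ≠ 0 := by positivity
        field_simp
      rw [h5]
      exact div_le_div_of_nonneg_right h2 (by positivity)
    refine h4.trans ?_
    exact mul_le_mul_of_nonneg_right hz1.le (by positivity)
  · -- big
    intro hDp R hR hR0 W hW hq hWR x hx
    have hap : 0 < a := by
      rcases ha0.lt_or_eq with h | h
      · exact h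
      · rw [← h] at hD9; linarith
    obtain ⟨t, ht0, htr, hta, htc⟩ := hbar (9 * R) (by linarith) (by linarith)
    obtain ⟨z, hz, rfl⟩ := hbr R t hR ht0 htr htc W hW hq hWR hx
    rw [mem_ball, dist_eq_norm] at hz
    refine (chord_io_le τ z w).trans ?_
    rw [le_div_iff₀ hDp]
    rw [← ha] at hta
    calc ‖z - w‖ * D ≤ t * (9 * a) := mul_le_mul hz.le hD9 hD0 ht0.le
      _ = 9 * (t * a) := by ring
      _ ≤ 9 * (A * (9 * R)) := by linarith
      _ = 81 * A * R := by ring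
      _ ≤ C * R := by
          refine mul_le_mul_of_nonneg_right ?_ hR.le
          have := sq_nonneg A
          linarith
  · -- lin
    intro hDp R hR hR0 hCR W hW hq hWR x hx
    have hap : 0 < a := by
      rcases ha0.lt_or_eq with h | h
      · exact h
      · rw [← h] at hD9; linarith
    have ha2 : 0 < a ^ 2 := by positivity
    have hD2 : 0 < D ^ 2 := by positivity
    have hDa : D ^ 2 ≤ 81 * a ^ 2 := by
      have h1 := pow_le_pow_left₀ hD0 hD9 2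
      rw [mul_pow] at h1
      linarith
    have hAR : 252 * A ^ 2 * R ≤ a ^ 2 := by
      have h1 : 20412 * A ^ 2 * R ≤ C * R := mul_le_mul_of_nonneg_right hC1 hR.le
      linarith
    obtain ⟨t, ht⟩ : ∃ t, t = 18 * R / a := ⟨_, rfl⟩
    have ht0 : 0 < t := by rw [ht]; positivity
    have hta : t * a = 18 * R := by rw [ht]; field_simp
    have hAp : 0 < A := by linarith
    have hARp : A * R ≤ A ^ 2 * R := mul_le_mul_of_nonneg_right hA2 hR.le
    have htr : t ≤ r1 := by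
      have h1 : 1458 * A * (R * a) ≤ C * r1 * (R * a) := mul_le_mul_of_nonneg_right hC2 (by positivity)
      have h2 : C * R * (r1 * a) ≤ 81 * a ^ 2 * (r1 * a) :=
        mul_le_mul_of_nonneg_right (hCR.trans hDa) (by positivity)
      have h3 : 1458 * R * a * a ≤ 1458 * R * a * A := mul_le_mul_of_nonneg_left haA (by positivity)
      have h4 : 81 * a ^ 2 * (18 * R) ≤ 81 * a ^ 2 * (r1 * a) := by
        calc 81 * a ^ 2 * (18 * R) = 1458 * R * a * a := by ring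
          _ ≤ 1458 * R * a * A := h3
          _ = 1458 * A * (R * a) := by ring
          _ ≤ C * r1 * (R * a) := h1
          _ = C * R * (r1 * a) := by ring
          _ ≤ 81 * a ^ 2 * (r1 * a) := h2
      have h5 : 18 * R ≤ r1 * a := le_of_mul_le_mul_left h4 (by positivity)
      rw [ht, div_le_iff₀ hap]
      exact h5
    have hAAR : 0 < A ^ 2 * R := by positivity
    have h36' : 36 * (A * R) < a ^ 2 := by linarith
    have hAt : A * t < a := by
      have h1 : A * t * a < a * a := by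
        calc A * t * a = A * (t * a) := by ring
          _ = 18 * (A * R) := by rw [hta]; ring
          _ < a * a := by
              have h2 : 0 < A * R := mul_pos hAp hR
              rw [← pow_two]
              linarith
      exact lt_of_mul_lt_mul_right h1 ha0
    have hAt2 : A * t ^ 2 < 9 * R := by
      have h1 : A * t ^ 2 * a ^ 2 < 9 * R * a ^ 2 := by
        calc A * t ^ 2 * a ^ 2 = A * (t * a) ^ 2 := by ring
          _ = 324 * (A * R) * R := by rw [hta]; ring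
          _ = 9 * R * (36 * (A * R)) := by ring
          _ < 9 * R * a ^ 2 := mul_lt_mul_of_pos_left h36' (by positivity)
      exact lt_of_mul_lt_mul_right h1 ha2.le
    have hcirc : ∀ z : ℂ, ‖z - w‖ = t → 9 * R < ‖g z - g w‖ := by
      intro z hz
      have hzm : z ∈ closedBall w r1 := by
        rw [mem_closedBall, dist_eq_norm, hz]; exact htr
      have h1 := (hlip z hzm).2
      have h2 : ‖g' w * (z - w)‖ ≤ ‖g z - g w‖ + ‖g z - g w - g' w * (z - w)‖ := by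
        have h3 : g' w * (z - w) = (g z - g w) - (g z - g w - g' w * (z - w)) := by ring
        calc ‖g' w * (z - w)‖ = ‖(g z - g w) - (g z - g w - g' w * (z - w))‖ := by rw [← h3]
          _ ≤ _ := norm_sub_le _ _
      rw [norm_mul, ← ha, hz] at h2
      rw [hz] at h1
      have h4 : a * t = 18 * R := by rw [mul_comm]; exact hta
      linarith
    obtain ⟨z, hz, rfl⟩ := hbr R t hR ht0 htr hcirc W hW hq hWR hx
    rw [mem_ball, dist_eq_norm] at hz
    have hzm : z ∈ closedBall w r1 := by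
      rw [mem_closedBall, dist_eq_norm]; linarith
    obtain ⟨hl1, hl2⟩ := hlip z hzm
    refine ⟨?_, ?_⟩
    · obtain ⟨t0, ht0'⟩ : ∃ t0, t0 = ‖z - w‖ := ⟨_, rfl⟩
      have ht00 : 0 ≤ t0 := by rw [ht0']; exact norm_nonneg _
      obtain ⟨e, he⟩ : ∃ e, e = t0 / a := ⟨_, rfl⟩
      have hte : t0 = a * e := by rw [he]; field_simp
      have he0 : 0 ≤ e := by rw [he]; positivity
      obtain ⟨m, hm⟩ : ∃ m, m = ‖g z - g w‖ := ⟨_, rfl⟩
      have hm0 : 0 ≤ m := by rw [hm]; exact norm_nonneg _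
      rw [← ht0'] at hz hl2
      have hm1 : a * t0 ≤ m + A * t0 ^ 2 := by
        have h2 : ‖g' w * (z - w)‖ ≤ ‖g z - g w‖ + ‖g z - g w - g' w * (z - w)‖ := by
          have h3 : g' w * (z - w) = (g z - g w) - (g z - g w - g' w * (z - w)) := by ring
          calc ‖g' w * (z - w)‖ = ‖(g z - g w) - (g z - g w - g' w * (z - w))‖ := by rw [← h3]
            _ ≤ _ := norm_sub_le _ _
        rw [norm_mul, ← ha, ← ht0', ← hm] at h2
        linarith
      have hm2 : m ≤ 2 * A * t0 := by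
        have h3 : g z - g w = (g z - g w - g' w * (z - w)) + g' w * (z - w) := by ring
        have h4 : m ≤ A * t0 ^ 2 + a * t0 := by
          calc m = ‖(g z - g w - g' w * (z - w)) + g' w * (z - w)‖ := by rw [← h3, hm]
            _ ≤ ‖g z - g w - g' w * (z - w)‖ + ‖g' w * (z - w)‖ := norm_add_le _ _
            _ ≤ A * t0 ^ 2 + a * t0 := by rw [norm_mul, ← ha, ← ht0']; linarith
        have h5 : t0 ≤ 1 := by linarith
        have h6 : A * t0 ^ 2 ≤ A * t0 := by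
          exact mul_le_mul_of_nonneg_left (pow_le_of_le_one ht00 h5 two_ne_zero) hAp.le
        have h7 : a * t0 ≤ A * t0 := mul_le_mul_of_nonneg_right haA ht00
        linarith
      have hx1 := hWR _ hx
      rw [hfv z hzm, hfw, chord_io, ← hjg, ← hm] at hx1
      rw [chord_io, ← hjw, ← ht0']
      obtain ⟨jz, hjz⟩ : ∃ jz, jz = √(1 + ‖z‖ ^ 2) := ⟨_, rfl⟩
      obtain ⟨jgz, hjgz⟩ : ∃ jgz, jgz = √(1 + ‖g z‖ ^ 2) := ⟨_, rfl⟩
      have hjz1 : 1 ≤ jz := by rw [hjz]; exact jj_ge _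
      have hjgz1 : 1 ≤ jgz := by rw [hjgz]; exact jj_ge _
      rw [← hjgz, div_le_iff₀ (by positivity)] at hx1
      rw [← hjz]
      have hee : e ≤ 18 * R / a ^ 2 := by
        rw [he, div_le_div_iff₀ hap ha2]
        have : t0 * a ≤ 18 * R := by
          rw [← hta]
          exact mul_le_mul_of_nonneg_right hz.le ha0
        calc t0 * a ^ 2 = (t0 * a) * a := by ring
          _ ≤ 18 * R * a := mul_le_mul_of_nonneg_right this ha0
      have hjl1 : jw ≤ jz + t0 := by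
        rw [hjw, hjz, ht0', norm_sub_rev]
        exact jj_lip w z
      have hjl2 : jgz ≤ jg + m := by
        rw [hjgz, hjg, hm]
        exact jj_lip _ _
      have hRm : m ≤ R * (jg * jgz) := by
        rw [mul_comm jg jgz]; exact hx1
      have h36 : 36 * A ^ 2 * R ≤ a ^ 2 := by
        have : 0 ≤ A ^ 2 * R := by positivity
        linarith
      have key := sharp_ar hap hA haA he0 hte h36 hee hm0 hm1 hm2 hjw1 hjz1 hjg1 hjl1 hjl2 hRm hR
      have hDD : D ≠ 0 := hDp.ne'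
      have h252 : 252 * A ^ 2 * R / a ^ 2 ≤ C * R / D ^ 2 := by
        rw [div_le_div_iff₀ ha2 hD2]
        calc 252 * A ^ 2 * R * D ^ 2 ≤ 252 * A ^ 2 * R * (81 * a ^ 2) :=
              mul_le_mul_of_nonneg_left hDa (by positivity)
          _ = 20412 * A ^ 2 * R * a ^ 2 := by ring
          _ ≤ C * R * a ^ 2 := by
              refine mul_le_mul_of_nonneg_right ?_ ha2.le
              exact mul_le_mul_of_nonneg_right hC1 hR.le
      rw [← mul_div_assoc, le_div_iff₀ hDp]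
      have h9 : t0 / (jz * jw) * D = t0 * a * jw / (jz * jg ^ 2) := by
        rw [hD]
        field_simp
      rw [h9]
      refine key.trans ?_
      exact mul_le_mul_of_nonneg_right (by linarith) hR.le
    · refine notcrit (hf z hzm) (hder z hzm) ?_
      intro h0
      rw [h0, zero_sub, norm_neg, ← ha] at hl1
      have : A * ‖z - w‖ ≤ A * t := mul_le_mul_of_nonneg_left hz.le hAp.le
      linarith

theorem psb {P Q : Polynomial ℂ} (hcop : IsCoprime P Q) (hd : 1 ≤ max P.natDegree Q.natDegree) (p : OnePoint ℂ) :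
    ∃ U ∈ 𝓝 p, ∃ C R0 : ℝ, 1 ≤ C ∧ 0 < R0 ∧ ∀ q ∈ U, ∃ D : ℝ, Stp (rat P Q) D C R0 q := by
  obtain ⟨τ, z0, hz0, rfl⟩ := io_ex p
  obtain ⟨σ, v1, hv1, hv⟩ := io_ex (rat P Q (io τ z0))
  obtain ⟨k, ψ, hk, hψ, hψ0, hψ1, hfe⟩ := loc_form hcop hd hv.symm
  have hψc : ∀ᶠ z in 𝓝 z0, ‖ψ z ^ k‖ < 1 := by
    have h1 : ContinuousAt (fun z => ‖ψ z ^ k‖) z0 := (hψ.continuousAt.pow k).norm
    refine h1.eventually (gt_mem_nhds ?_)
    show ‖ψ z0 ^ k‖ < 1
    rw [hψ0, zero_pow hk.ne', norm_zero]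
    exact one_pos
  obtain ⟨r, hr, hball⟩ := Metric.eventually_nhds_iff_ball.1 (hψc.and hfe)
  obtain ⟨A, r1, ρ0, g', hA, hr1, hr1r, hρ0, hder, hq⟩ :=
    psa hk hψ hψ0 hψ1 v1 (r := min r 1) (lt_min hr one_pos)
  have hr1' : 2 * r1 ≤ r := hr1r.trans (min_le_left _ _)
  have hr1'' : 2 * r1 ≤ 1 := hr1r.trans (min_le_right _ _)
  have hstr : ∀ z ∈ ball z0 (2 * r1), HasStrictDerivAt (fun z => v1 + ψ z ^ k) (g' z) z := by
    intro z hz
    have h1 : DifferentiableOn ℂ (fun z => v1 + ψ z ^ k) (ball z0 (2 * r1)) :=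
      fun x hx => (hder x hx).differentiableAt.differentiableWithinAt
    have h2 := (h1.analyticAt (isOpen_ball.mem_nhds hz)).hasStrictDerivAt
    rwa [(hder z hz).deriv] at h2
  refine ⟨io τ '' ball z0 r1, ((io_emb τ).isOpenMap _ isOpen_ball).mem_nhds ⟨z0, mem_ball_self hr1, rfl⟩,
    20412 * A ^ 2 / r1, ρ0 / 9, ?_, by positivity, ?_⟩
  · rw [le_div_iff₀ hr1]
    nlinarith
  · rintro _ ⟨w, hw, rfl⟩
    obtain ⟨h1, h2, h3⟩ := hq w hw
    have hsub : ∀ z ∈ closedBall w r1, z ∈ ball z0 (2 * r1) := by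
      intro z hz
      rw [mem_ball] at hw ⊢
      rw [mem_closedBall] at hz
      linarith [dist_triangle z w z0]
    refine ⟨_, stp_loc (f := rat P Q) (τ := τ) (σ := σ) (g := fun z => v1 + ψ z ^ k) (g' := g') hA hr1
      (by linarith) ?_ ?_ ?_ ?_ (fun z hz => hstr z (hsub z hz)) h1 ?_ ?_⟩
    · rw [le_div_iff₀ hr1]
      have : 0 ≤ 20412 * A ^ 2 := by positivity
      nlinarith
    · rw [div_mul_cancel₀ _ hr1.ne']
      nlinarith
    · intro z hz
      have hzb := hsub z hz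
      have hzr : z ∈ ball z0 r := ball_subset_ball hr1' hzb
      refine ⟨?_, ?_⟩
      · rw [mem_ball, dist_eq_norm] at hzb
        calc ‖z‖ = ‖z0 + (z - z0)‖ := by rw [add_sub_cancel]
          _ ≤ ‖z0‖ + ‖z - z0‖ := norm_add_le _ _
          _ ≤ 2 := by linarith
      · have := (hball z hzr).1
        calc ‖v1 + ψ z ^ k‖ ≤ ‖v1‖ + ‖ψ z ^ k‖ := norm_add_le _ _
          _ ≤ 2 := by linarith
    · intro z hz
      have hzr : z ∈ ball z0 r := ball_subset_ball hr1' (hsub z hz)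
      filter_upwards [isOpen_ball.mem_nhds hzr] with y hy
      exact (hball y hy).2
    · intro z hz
      obtain ⟨h4, h5⟩ := h2 z (hsub z hz)
      refine ⟨h4, ?_⟩
      show ‖v1 + ψ z ^ k - (v1 + ψ w ^ k) - g' w * (z - w)‖ ≤ _
      rw [add_sub_add_left_eq_sub]
      exact h5
    · intro ρ hρ hρ1
      obtain ⟨t, ht0, ht1, ht2, ht3⟩ := h3 ρ hρ hρ1
      refine ⟨t, ht0, ht1, ht2, ?_⟩
      intro z hz
      show ρ < ‖v1 + ψ z ^ k - (v1 + ψ w ^ k)‖
      rw [add_sub_add_left_eq_sub]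
      exact ht3 z hz

end Pool.Agent.H56.UE
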