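import Pool.Agent.H56.UE.PSB

/-!
# Module SPS: the step lemma, uniformly on the sphere

PROOF. `Stp` is monotone: `Stp f D C R0 q`, `C ≤ C'`, `R0' ≤ R0`, `0 < R0'` imply `Stp f D C' R0' q` (`big`: `C R / D ≤ C' R / D`; `lin`: `C' R ≤ D ^ 2` implies `C R ≤ D ^ 2`, and `(1 + C R / D ^ 2) (R / D) ≤ (1 + C' R / D ^ 2) (R / D)`). `psb` at every point, compactness of the sphere (`isCompact_univ.elim_nhds_subcover`): finitely many `p_i`,
`C` the maximum (or the sum) of the constants, `R0` the minimum. For every `q` there is `i` with `q ∈ U_i`: `D q` by choice (`choose`).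
-/

set_option autoImplicit false

open Filter Topology Metric Set Polynomial

namespace Pool.Agent.H56.UE

open Pool.Agent.H44.Fatou (rat)
open Pool.Agent.H35.EX (chord)
open Pool.Agent.H32.BT (IsCrit)

private theorem sps_mono {f : OnePoint ℂ → OnePoint ℂ} {D C C' R0 R0' : ℝ} {q : OnePoint ℂ}
    (h : Stp f D C R0 q) (hC : C ≤ C') (hR : R0' ≤ R0) : Stp f D C' R0' q where
  D0 := h.D0
  DC := h.DC.trans hC
  up := h.up
  big := by
    intro hD R hR0 hR1 W hW hq hf w hw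
    refine (h.big hD R hR0 (hR1.trans hR) W hW hq hf w hw).trans ?_
    exact div_le_div_of_nonneg_right (mul_le_mul_of_nonneg_right hC hR0.le) hD.le
  lin := by
    intro hD R hR0 hR1 hCR W hW hq hf w hw
    have h0 : C * R ≤ C' * R := mul_le_mul_of_nonneg_right hC hR0.le
    obtain ⟨h2, h3⟩ := h.lin hD R hR0 (hR1.trans hR) (h0.trans hCR) W hW hq hf w hw
    refine ⟨h2.trans ?_, h3⟩
    refine mul_le_mul_of_nonneg_right ?_ (div_nonneg hR0.le hD.le)
    have h4 : C * R / D ^ 2 ≤ C' * R / D ^ 2 := div_le_div_of_nonneg_right h0 (sq_nonneg D)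
    linarith

theorem sps {P Q : Polynomial ℂ} (hcop : IsCoprime P Q) (hd : 1 ≤ max P.natDegree Q.natDegree) :
    ∃ (D : OnePoint ℂ → ℝ) (C R0 : ℝ), 1 ≤ C ∧ 0 < R0 ∧ ∀ q, Stp (rat P Q) (D q) C R0 q := by
  choose U hU C R0 hC hR0 hD using psb hcop hd
  obtain ⟨t, -, ht⟩ := isCompact_univ.elim_nhds_subcover U (fun x _ => hU x)
  have hC0 : ∀ p ∈ t, 0 ≤ C p := fun p _ => le_trans zero_le_one (hC p)
  have hI0 : ∀ p ∈ t, 0 ≤ (R0 p)⁻¹ := fun p _ => (inv_pos.2 (hR0 p)).le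
  have hb : 0 < ∑ p ∈ t, (R0 p)⁻¹ + 1 := by
    have := Finset.sum_nonneg hI0
    linarith
  have key : ∀ q : OnePoint ℂ, ∃ D : ℝ, Stp (rat P Q) D (∑ p ∈ t, C p + 1)
      (∑ p ∈ t, (R0 p)⁻¹ + 1)⁻¹ q := by
    intro q
    have h1 := ht (Set.mem_univ q)
    rw [Set.mem_iUnion₂] at h1
    obtain ⟨p, hp, hq⟩ := h1
    obtain ⟨D, h2⟩ := hD p q hq
    refine ⟨D, sps_mono h2 ?_ ?_⟩
    · have h3 := Finset.single_le_sum hC0 hp
      linarith
    · have h3 := Finset.single_le_sum hI0 hp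
      have h4 := inv_anti₀ (inv_pos.2 (hR0 p)) (show (R0 p)⁻¹ ≤ ∑ p ∈ t, (R0 p)⁻¹ + 1 by linarith)
      rwa [inv_inv] at h4
  choose D h using key
  refine ⟨D, ∑ p ∈ t, C p + 1, (∑ p ∈ t, (R0 p)⁻¹ + 1)⁻¹, ?_, inv_pos.2 hb, h⟩
  have := Finset.sum_nonneg hC0
  linarith

end Pool.Agent.H56.UE
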